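import Mathlib

/-!
Continuation of an identity `∏ G_k ^ d_k = exp T` with real exponents along the real axis
-/

set_option autoImplicit false

open Complex Finset Filter Topology Set

namespace Pool.T6.H82.KS

variable {κ : Type} [Fintype κ] [DecidableEq κ]

/-- the logarithmic derivative identity, cleared of denominators -/
noncomputable def NN (G : κ → ℂ → ℂ) (T : ℂ → ℂ) (d : κ → ℝ) (s : ℂ) : ℂ :=
  ∑ k, (d k : ℂ) * deriv (G k) s * ∏ j ∈ univ.erase k, G j s - deriv T s * ∏ j, G j s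

lemma NN_zero (U : Set ℂ) (hU : IsOpen U) (hUc : IsPreconnected U) (G : κ → ℂ → ℂ) (T : ℂ → ℂ)
    (d : κ → ℝ) (hG : ∀ k, DifferentiableOn ℂ (G k) U) (hT : DifferentiableOn ℂ T U)
    (s1 : ℂ) (hs1 : s1 ∈ U) (Λ : κ → ℂ → ℂ) (hΛ : ∀ k, ∀ᶠ s in 𝓝 s1, DifferentiableAt ℂ (Λ k) s)
    (hGΛ : ∀ k, ∀ᶠ s in 𝓝 s1, G k s = exp (Λ k s))
    (hsum : ∀ᶠ s in 𝓝 s1, ∑ k, (d k : ℂ) * Λ k s = T s) :
    EqOn (NN G T d) 0 U := by
  have hNd : DifferentiableOn ℂ (NN G T d) U := by
    unfold NN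
    refine DifferentiableOn.sub ?_ ?_
    · refine DifferentiableOn.fun_sum fun k _ => ?_
      refine DifferentiableOn.mul ?_ ?_
      · exact ((hG k).deriv hU).const_mul _
      · exact DifferentiableOn.fun_finsetProd fun j _ => hG j
    · exact (hT.deriv hU).mul (DifferentiableOn.fun_finsetProd fun j _ => hG j)
  refine (hNd.analyticOnNhd hU).eqOn_of_preconnected_of_eventuallyEq
    (g := 0) analyticOnNhd_const hUc hs1 ?_
  have h1 : ∀ᶠ s in 𝓝 s1, ∀ k, G k s = exp (Λ k s) := eventually_all.mpr hGΛ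
  have h2 : ∀ᶠ s in 𝓝 s1, ∀ k, DifferentiableAt ℂ (Λ k) s := eventually_all.mpr hΛ
  filter_upwards [h1.eventually_nhds, h2, hsum.eventually_nhds] with s hs1' hs2 hs3
  have hd : ∀ k, deriv (G k) s = deriv (Λ k) s * G k s := by
    intro k
    have e1 : G k =ᶠ[𝓝 s] fun s => exp (Λ k s) := by
      filter_upwards [hs1'] with w hw
      exact hw k
    rw [e1.deriv_eq, deriv_cexp (hs2 k), hs1'.self_of_nhds k]
    ring
  have hTd : deriv T s = ∑ k, (d k : ℂ) * deriv (Λ k) s := by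
    have e1 : T =ᶠ[𝓝 s] fun s => ∑ k, (d k : ℂ) * Λ k s := by
      filter_upwards [hs3] with w hw
      exact hw.symm
    rw [e1.deriv_eq, deriv_fun_sum fun k _ => (hs2 k).const_mul _]
    exact Finset.sum_congr rfl fun k _ => by rw [deriv_const_mul _ (hs2 k)]
  unfold NN
  rw [hTd, Finset.sum_mul, ← Finset.sum_sub_distrib]
  refine Finset.sum_eq_zero fun k _ => ?_
  rw [hd k, ← Finset.mul_prod_erase univ (fun j => G j s) (Finset.mem_univ k)]
  ring

lemma hasDerivAt_log_norm (g : ℂ → ℂ) (x : ℝ) (hg : DifferentiableAt ℂ g x) (h0 : g x ≠ 0) :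
    HasDerivAt (fun x : ℝ => Real.log ‖g x‖) (deriv g x / g x).re x := by
  have h1 : HasDerivAt (fun x : ℝ => g x) (deriv g x) x := hg.hasDerivAt.comp_ofReal
  have hre : HasDerivAt (fun x : ℝ => (g x).re) (deriv g x).re x := by
    exact (Complex.reCLM.hasFDerivAt (x := g x)).comp_hasDerivAt x h1
  have him : HasDerivAt (fun x : ℝ => (g x).im) (deriv g x).im x := by
    exact (Complex.imCLM.hasFDerivAt (x := g x)).comp_hasDerivAt x h1
  have h2 := (hre.mul hre).add (him.mul him)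
  have hn : (g x).re * (g x).re + (g x).im * (g x).im ≠ 0 := by
    have := Complex.normSq_pos.mpr h0
    rw [Complex.normSq_apply] at this
    exact this.ne'
  have h3 := (h2.log hn).div_const 2
  convert! h3 using 1
  · ext t
    have : ‖g t‖ = Real.sqrt ((g t).re * (g t).re + (g t).im * (g t).im) := by
      rw [← Complex.normSq_apply, Complex.norm_def]
    rw [this, Real.log_sqrt (by nlinarith [mul_self_nonneg (g t).re, mul_self_nonneg (g t).im])]
    rfl
  · rw [Complex.div_re, Complex.normSq_apply]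
    field_simp
    simp only [Pi.add_apply, Pi.mul_apply]
    ring

/-- continuation along the real axis -/
theorem cont_abs (U : Set ℂ) (hU : IsOpen U) (hUc : IsPreconnected U) (G : κ → ℂ → ℂ) (T : ℂ → ℂ)
    (d : κ → ℝ) (hG : ∀ k, DifferentiableOn ℂ (G k) U) (hT : DifferentiableOn ℂ T U)
    (s1 : ℂ) (hs1 : s1 ∈ U) (Λ : κ → ℂ → ℂ) (hΛ : ∀ k, ∀ᶠ s in 𝓝 s1, DifferentiableAt ℂ (Λ k) s)
    (hGΛ : ∀ k, ∀ᶠ s in 𝓝 s1, G k s = exp (Λ k s))
    (hsum : ∀ᶠ s in 𝓝 s1, ∑ k, (d k : ℂ) * Λ k s = T s)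
    (α β : ℝ) (hαβ : α < β) (hJ : ∀ x : ℝ, x ∈ Ioo α β → (x : ℂ) ∈ U)
    (hd : ∀ k, 0 < d k ∨ ∀ x : ℝ, x ∈ Ioo α β → G k x ≠ 0) :
    ∃ C : ℝ, 0 < C ∧ ∀ x : ℝ, x ∈ Ioo α β → ∏ k, ‖G k x‖ ^ d k = C * Real.exp (T x).re := by
  have hN := NN_zero U hU hUc G T d hG hT s1 hs1 Λ hΛ hGΛ hsum
  -- a real point at which nothing vanishes
  obtain ⟨x0, hx0, hG0⟩ : ∃ x0 : ℝ, x0 ∈ Ioo α β ∧ ∀ k, G k x0 ≠ 0 := by
    set m : ℝ := (α + β) / 2 with hm
    have hmJ : m ∈ Ioo α β := ⟨by rw [hm]; linarith, by rw [hm]; linarith⟩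
    have h1 : ∀ k, ∀ᶠ s in 𝓝[≠] (m : ℂ), G k s ≠ 0 := by
      intro k
      have hA := (hG k).analyticOnNhd hU
      rcases (hA m (hJ m hmJ)).eventually_eq_zero_or_eventually_ne_zero with h | h
      · exfalso
        have h2 := hA.eqOn_zero_of_preconnected_of_eventuallyEq_zero hUc (hJ m hmJ) h hs1
        have h3 := (hGΛ k).self_of_nhds
        rw [h2] at h3
        exact Complex.exp_ne_zero _ h3.symm
      · exact h
    have h2 : ∀ᶠ s in 𝓝[≠] (m : ℂ), ∀ k, G k s ≠ 0 := eventually_all.mpr h1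
    have h3 : Tendsto (fun x : ℝ => (x : ℂ)) (𝓝[≠] m) (𝓝[≠] (m : ℂ)) := by
      refine tendsto_nhdsWithin_iff.mpr ⟨?_, ?_⟩
      · exact (Complex.continuous_ofReal.tendsto m).mono_left nhdsWithin_le_nhds
      · filter_upwards [self_mem_nhdsWithin] with x hx
        intro h
        exact hx (Complex.ofReal_injective h)
    have h4 := h3.eventually h2
    have h5 : ∀ᶠ x in 𝓝[≠] m, x ∈ Ioo α β := nhdsWithin_le_nhds (Ioo_mem_nhds hmJ.1 hmJ.2)
    obtain ⟨x, hx1, hx2⟩ := (h4.and h5).exists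
    exact ⟨x, hx2, hx1⟩
  set φ : ℝ → ℝ := fun x => (∏ k, ‖G k x‖ ^ d k) * Real.exp (-(T x).re) with hφ
  have hGc : ∀ k, ∀ x : ℝ, x ∈ Ioo α β → ContinuousAt (fun x : ℝ => G k x) x := by
    intro k x hx
    have h1 := ((hG k).differentiableAt (hU.mem_nhds (hJ x hx))).continuousAt
    exact ContinuousAt.comp (f := fun x : ℝ => (x : ℂ)) h1 Complex.continuous_ofReal.continuousAt
  have hTc : ∀ x : ℝ, x ∈ Ioo α β → ContinuousAt (fun x : ℝ => T x) x := by
    intro x hx
    have h1 := (hT.differentiableAt (hU.mem_nhds (hJ x hx))).continuousAt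
    exact ContinuousAt.comp (f := fun x : ℝ => (x : ℂ)) h1 Complex.continuous_ofReal.continuousAt
  have hφc : ∀ x : ℝ, x ∈ Ioo α β → ContinuousAt φ x := by
    intro x hx
    refine ContinuousAt.mul ?_ ?_
    · refine tendsto_finsetProd _ fun k _ => ?_
      refine ContinuousAt.rpow_const (hGc k x hx).norm ?_
      rcases hd k with h | h
      · exact Or.inr h.le
      · exact Or.inl (norm_ne_zero_iff.mpr (h x hx))
    · exact (Real.continuous_exp.continuousAt).comp
        (Complex.continuous_re.continuousAt.comp (hTc x hx)).neg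
  have hφ0 : 0 < φ x0 := by
    refine mul_pos (Finset.prod_pos fun k _ => ?_) (Real.exp_pos _)
    exact Real.rpow_pos_of_pos (norm_pos_iff.mpr (hG0 k)) _
  -- where phi is nonzero, nothing vanishes
  have hne : ∀ x : ℝ, x ∈ Ioo α β → φ x ≠ 0 → ∀ k, G k x ≠ 0 := by
    intro x hx hφx k hk
    rcases hd k with h | h
    · apply hφx
      simp only [hφ]
      rw [Finset.prod_eq_zero (Finset.mem_univ k), zero_mul]
      rw [hk, norm_zero, Real.zero_rpow h.ne']
    · exact h x hx hk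
  -- local constancy
  have hloc : ∀ x : ℝ, x ∈ Ioo α β → φ x ≠ 0 → ∀ᶠ y in 𝓝 x, φ y = φ x := by
    intro x hx hφx
    have hnz := hne x hx hφx
    have h1 : ∀ᶠ y in 𝓝 x, ∀ k, G k ((y : ℝ) : ℂ) ≠ 0 :=
      eventually_all.mpr fun k => (hGc k x hx).eventually_ne (hnz k)
    have h2 : ∀ᶠ y in 𝓝 x, y ∈ Ioo α β := Ioo_mem_nhds hx.1 hx.2
    obtain ⟨ε, hε, hball⟩ := Metric.eventually_nhds_iff_ball.mp (h1.and h2)
    set Ψ : ℝ → ℝ := fun y => ∑ k, d k * Real.log ‖G k y‖ - (T y).re with hΨ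
    have hΨφ : ∀ y ∈ Metric.ball x ε, φ y = Real.exp (Ψ y) := by
      intro y hy
      have h3 := (hball y hy).1
      simp only [hφ, hΨ]
      rw [sub_eq_add_neg, Real.exp_add, Real.exp_sum]
      congr 1
      refine Finset.prod_congr rfl fun k _ => ?_
      rw [Real.rpow_def_of_pos (norm_pos_iff.mpr (h3 k)), mul_comm]
    have hder : ∀ y ∈ Metric.ball x ε, HasDerivAt Ψ 0 y := by
      intro y hy
      have h3 := (hball y hy).1
      have hyU := hJ y (hball y hy).2
      have h4 : ∀ k, HasDerivAt (fun y : ℝ => d k * Real.log ‖G k y‖)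
          (d k * (deriv (G k) y / G k y).re) y := fun k =>
        (hasDerivAt_log_norm (G k) y ((hG k).differentiableAt (hU.mem_nhds hyU)) (h3 k)).const_mul _
      have h5 : HasDerivAt (fun y : ℝ => (T y).re) (deriv T y).re y := by
        have h6 : HasDerivAt (fun y : ℝ => T y) (deriv T y) y :=
          (hT.differentiableAt (hU.mem_nhds hyU)).hasDerivAt.comp_ofReal
        exact (Complex.reCLM.hasFDerivAt (x := T y)).comp_hasDerivAt y h6
      have h7 := (HasDerivAt.fun_sum fun k (_ : k ∈ Finset.univ) => h4 k).sub h5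
      convert! h7 using 1
      have h8 := hN hyU
      have hP : ∏ j, G j y ≠ 0 := Finset.prod_ne_zero_iff.mpr fun j _ => h3 j
      have h9 : ∑ k, (d k : ℂ) * (deriv (G k) y / G k y) = deriv T y := by
        have h10 : (∑ k, (d k : ℂ) * (deriv (G k) y / G k y)) * ∏ j, G j y
            = ∑ k, (d k : ℂ) * deriv (G k) y * ∏ j ∈ univ.erase k, G j y := by
          rw [Finset.sum_mul]
          refine Finset.sum_congr rfl fun k _ => ?_
          rw [← Finset.mul_prod_erase univ (fun j => G j (y : ℂ)) (Finset.mem_univ k)]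
          have := h3 k
          field_simp
        have h11 : NN G T d y = 0 := h8
        unfold NN at h11
        rw [← h10, ← sub_mul] at h11
        rcases mul_eq_zero.mp h11 with h | h
        · exact sub_eq_zero.mp h
        · exact absurd h hP
      have h12 := congrArg Complex.re h9
      rw [Complex.re_sum] at h12
      simp_rw [Complex.re_ofReal_mul] at h12
      rw [h12, sub_self]
    have hconst : ∀ y ∈ Metric.ball x ε, Ψ y = Ψ x := by
      intro y hy
      have hconv : Convex ℝ (Metric.ball x ε) := convex_ball x ε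
      refine hconv.is_const_of_fderivWithin_eq_zero (𝕜 := ℝ) ?_ ?_ hy (Metric.mem_ball_self hε)
      · intro z hz
        exact (hder z hz).differentiableAt.differentiableWithinAt
      · intro z hz
        rw [fderivWithin_of_isOpen Metric.isOpen_ball hz]
        ext
        simp [(hder z hz).hasFDerivAt.fderiv]
    filter_upwards [Metric.ball_mem_nhds x hε] with y hy
    rw [hΨφ y hy, hconst y hy, ← hΨφ x (Metric.mem_ball_self hε)]
  -- connectedness
  have hsub : Ioo α β ⊆ {x | x ∈ Ioo α β ∧ φ x = φ x0} := by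
    refine isPreconnected_Ioo.subset_of_closure_inter_subset ?_ ?_ ?_
    · rw [isOpen_iff_mem_nhds]
      intro x hx
      have h1 := hloc x hx.1 (by rw [hx.2]; exact hφ0.ne')
      filter_upwards [h1, Ioo_mem_nhds hx.1.1 hx.1.2] with y hy1 hy2
      exact ⟨hy2, hy1.trans hx.2⟩
    · exact ⟨x0, hx0, hx0, rfl⟩
    · rintro x ⟨hx1, hx2⟩
      refine ⟨hx2, ?_⟩
      have h1 : ∃ᶠ y in 𝓝 x, y ∈ {x | x ∈ Ioo α β ∧ φ x = φ x0} :=
        mem_closure_iff_frequently.mp hx1
      by_contra hcon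
      have h2 : ∀ᶠ y in 𝓝 x, φ y ≠ φ x0 := (hφc x hx2).eventually_ne hcon
      obtain ⟨y, hy1, hy2⟩ := (h1.and_eventually h2).exists
      exact hy2 hy1.2
  refine ⟨φ x0, hφ0, fun x hx => ?_⟩
  have h1 := (hsub hx).2
  rw [← h1]
  simp only [hφ]
  rw [mul_assoc, ← Real.exp_add, neg_add_cancel, Real.exp_zero, mul_one]

end Pool.T6.H82.KS
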