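import Mathlib

/-!
Lower bounds for the prime sums of twisted Dirichlet characters to the right of 1
-/

set_option autoImplicit false

open Complex Finset Filter Topology

namespace Pool.T6.H82.KS

variable {q : ℕ} [NeZero q]

open Classical in
/-- the L-function with its pole removed -/
noncomputable def Kf (χ : DirichletCharacter ℂ q) : ℂ → ℂ :=
  if χ = 1 then DirichletCharacter.LFunctionTrivChar₁ q else DirichletCharacter.LFunction χ

open Classical in
/-- the factor which removes the pole -/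
noncomputable def pf (χ : DirichletCharacter ℂ q) (z : ℂ) : ℂ := if χ = 1 then z - 1 else 1

lemma Kf_diff (χ : DirichletCharacter ℂ q) : Differentiable ℂ (Kf χ) := by
  unfold Kf
  split_ifs with h
  · exact DirichletCharacter.differentiable_LFunctionTrivChar₁ q
  · exact DirichletCharacter.differentiable_LFunction h

lemma Kf_eq' (χ : DirichletCharacter ℂ q) (z : ℂ) (hz : z ≠ 1) :
    Kf χ z = pf χ z * DirichletCharacter.LFunction χ z := by
  unfold Kf pf
  split_ifs with h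
  · rw [h, DirichletCharacter.LFunctionTrivChar₁, Function.update_of_ne hz]
  · rw [one_mul]

lemma Kf_ne_zero (χ : DirichletCharacter ℂ q) (z : ℂ) (hz : 1 ≤ z.re) : Kf χ z ≠ 0 := by
  by_cases h1 : z = 1
  · unfold Kf
    split_ifs with h
    · rw [h1]; exact DirichletCharacter.LFunctionTrivChar₁_apply_one_ne_zero q
    · exact DirichletCharacter.LFunction_ne_zero_of_one_le_re χ (Or.inl h) hz
  · rw [Kf_eq' χ z h1]
    refine mul_ne_zero ?_ (DirichletCharacter.LFunction_ne_zero_of_one_le_re χ (Or.inr h1) hz)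
    unfold pf
    split_ifs with h
    · exact sub_ne_zero.mpr h1
    · exact one_ne_zero

lemma Kf_eq (χ : DirichletCharacter ℂ q) (z : ℂ) (hz : 1 < z.re) :
    Kf χ z = pf χ z * LSeries (fun n => χ n) z := by
  have h1 : z ≠ 1 := by rintro rfl; simp at hz
  rw [Kf_eq' χ z h1, DirichletCharacter.LFunction_eq_LSeries χ hz]

lemma pf_diff (χ : DirichletCharacter ℂ q) : Differentiable ℂ (pf χ) := by
  unfold pf
  split_ifs with h
  · exact differentiable_id.sub_const 1
  · exact differentiable_const 1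

lemma pf_ne_zero (χ : DirichletCharacter ℂ q) (z : ℂ) (hz : z ≠ 1) : pf χ z ≠ 0 := by
  unfold pf
  split_ifs with h
  · exact sub_ne_zero.mpr hz
  · exact one_ne_zero

/-- the Euler factor -/
noncomputable def zz (χ : DirichletCharacter ℂ q) (p : ℕ) (s : ℂ) : ℂ := χ p * (p : ℂ) ^ (-s)

lemma zz_norm_le (χ : DirichletCharacter ℂ q) (p : ℕ) (hp : p.Prime) (s : ℂ) :
    ‖zz χ p s‖ ≤ (p : ℝ) ^ (-s.re) := by
  unfold zz
  rw [norm_mul, Complex.norm_natCast_cpow_of_pos hp.pos, Complex.neg_re]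
  exact mul_le_of_le_one_left (by positivity) (χ.norm_le_one _)

lemma rpow_le_half (p : ℕ) (hp : p.Prime) (y : ℝ) (hy : 1 ≤ y) : (p : ℝ) ^ (-y) ≤ 1 / 2 := by
  have hp2 : (2 : ℝ) ≤ p := by exact_mod_cast hp.two_le
  calc (p : ℝ) ^ (-y) ≤ (p : ℝ) ^ (-1 : ℝ) :=
        Real.rpow_le_rpow_of_exponent_le (by linarith) (by linarith)
    _ = (p : ℝ)⁻¹ := Real.rpow_neg_one _
    _ ≤ 1 / 2 := by rw [one_div]; exact inv_anti₀ (by norm_num) hp2

lemma log_one_sub_bound (z : ℂ) (hz : ‖z‖ ≤ 1 / 2) : ‖-log (1 - z) - z‖ ≤ ‖z‖ ^ 2 := by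
  have h := Complex.norm_log_sub_logTaylor_le 1 (z := -z) (by rw [norm_neg]; linarith)
  have e : Complex.logTaylor 2 (-z) = -z := by
    rw [Complex.logTaylor_succ, Complex.logTaylor_succ, Complex.logTaylor_zero]
    simp
  rw [show (1 : ℕ) + 1 = 2 from rfl, e, norm_neg] at h
  have e2 : -log (1 - z) - z = -(log (1 + -z) - -z) := by ring_nf
  rw [e2, norm_neg]
  refine h.trans ?_
  have h3 : (1 - ‖z‖)⁻¹ ≤ 2 := by
    rw [inv_le_comm₀ (by linarith) (by norm_num)]; linarith
  norm_num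
  have h4 : 0 ≤ ‖z‖ ^ 2 := by positivity
  nlinarith

/-- lower bound for the real part of the prime sum -/
lemma prime_sum_low (χ : DirichletCharacter ℂ q) (γ : ℝ) (e : ℝ)
    (he : (e = 1 ∧ χ = 1 ∧ γ = 0) ∨ e = 0) :
    ∃ C : ℝ, ∀ y : ℝ, 1 < y → y < 3 / 2 →
      e * Real.log (1 / (y - 1)) - C ≤ (∑' p : Nat.Primes, zz χ p (y - I * γ)).re := by
  -- lower bound of Kf
  have hcont : ContinuousOn (fun y : ℝ => ‖Kf χ (y - I * γ)‖) (Set.Icc 1 (3/2)) := by
    apply Continuous.continuousOn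
    exact ((Kf_diff χ).continuous.comp (by fun_prop)).norm
  obtain ⟨y0, hy0, hmin⟩ := isCompact_Icc.exists_isMinOn (Set.nonempty_Icc.mpr (by norm_num)) hcont
  set c : ℝ := ‖Kf χ (y0 - I * γ)‖ with hc
  have hre : ∀ y : ℝ, ((y : ℂ) - I * γ).re = y := by intro y; simp
  have hc0 : 0 < c := norm_pos_iff.mpr (Kf_ne_zero χ _ (by rw [hre]; exact hy0.1))
  set D : ℝ := ∑' p : Nat.Primes, ((p : ℝ) ^ (-1 : ℝ)) ^ 2 with hD
  have hDs : Summable fun p : Nat.Primes => ((p : ℝ) ^ (-1 : ℝ)) ^ 2 := by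
    have := Nat.Primes.summable_rpow (r := -2) |>.mpr (by norm_num)
    refine this.congr fun p => ?_
    rw [← Real.rpow_natCast, ← Real.rpow_mul (by positivity)]
    norm_num
  refine ⟨D + Real.log (2 + |γ|) - Real.log c, fun y hy1 hy2 => ?_⟩
  set s : ℂ := (y : ℂ) - I * γ with hs
  have hsre : s.re = y := hre y
  have hs1 : 1 < s.re := by rw [hsre]; exact hy1
  have hexp := DirichletCharacter.LSeries_eulerProduct_exp_log χ hs1
  have hL : Real.log ‖LSeries (fun n : ℕ => χ n) s‖ = (∑' p : Nat.Primes, -log (1 - χ p * (p : ℂ) ^ (-s))).re := by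
    rw [← hexp, Complex.norm_exp, Real.log_exp]
  have hK : ‖Kf χ s‖ = ‖pf χ s‖ * ‖LSeries (fun n : ℕ => χ n) s‖ := by rw [Kf_eq χ s hs1, norm_mul]
  have hs1' : s ≠ 1 := by intro h; rw [h] at hs1; simp at hs1
  have hpf0 : 0 < ‖pf χ s‖ := norm_pos_iff.mpr (pf_ne_zero χ s hs1')
  have hKc : c ≤ ‖Kf χ s‖ := hmin ⟨hy1.le, hy2.le⟩
  have hK0 : 0 < ‖Kf χ s‖ := lt_of_lt_of_le hc0 hKc
  have hL0 : 0 < ‖LSeries (fun n : ℕ => χ n) s‖ := by
    rcases (norm_nonneg (LSeries (fun n : ℕ => χ n) s)).lt_or_eq with h | h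
    · exact h
    · rw [hK, ← h, mul_zero] at hK0; exact absurd hK0 (lt_irrefl _)
  have hlogK : Real.log ‖Kf χ s‖ = Real.log ‖pf χ s‖ + Real.log ‖LSeries (fun n : ℕ => χ n) s‖ := by
    rw [hK, Real.log_mul hpf0.ne' hL0.ne']
  have hlogc : Real.log c ≤ Real.log ‖Kf χ s‖ := Real.log_le_log hc0 hKc
  have hpfub : Real.log ‖pf χ s‖ ≤ Real.log (2 + |γ|) - e * Real.log (1 / (y - 1)) := by
    have hγ : 0 ≤ Real.log (2 + |γ|) := Real.log_nonneg (by have := abs_nonneg γ; linarith)
    rcases he with ⟨h1, h2, h3⟩ | h0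
    · have : ‖pf χ s‖ = y - 1 := by
        unfold pf
        rw [if_pos h2, hs, h3]
        have : (y : ℂ) - I * (0 : ℝ) - 1 = ((y - 1 : ℝ) : ℂ) := by push_cast; ring
        rw [this, Complex.norm_real, Real.norm_eq_abs, abs_of_pos (by linarith)]
      rw [this, h1, one_mul, one_div, Real.log_inv]
      linarith
    · rw [h0, zero_mul, sub_zero]
      refine Real.log_le_log hpf0 ?_
      unfold pf
      split_ifs with h
      · have e1 : s - 1 = ((y - 1 : ℝ) : ℂ) + (-(I * γ)) := by rw [hs]; push_cast; ring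
        rw [e1]
        refine (norm_add_le _ _).trans ?_
        rw [Complex.norm_real, Real.norm_eq_abs, abs_of_pos (by linarith), norm_neg, norm_mul,
          Complex.norm_I, one_mul, Complex.norm_real, Real.norm_eq_abs]
        linarith
      · rw [norm_one]; have := abs_nonneg γ; linarith
  -- comparison of the sums
  have hz : ∀ p : Nat.Primes, ‖zz χ p s‖ ≤ (p : ℝ) ^ (-1 : ℝ) := by
    intro p
    refine (zz_norm_le χ p p.2 s).trans ?_
    refine Real.rpow_le_rpow_of_exponent_le (by exact_mod_cast p.2.one_lt.le) ?_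
    rw [hsre]; linarith
  have hzh : ∀ p : Nat.Primes, ‖zz χ p s‖ ≤ 1 / 2 := fun p =>
    (hz p).trans (rpow_le_half p p.2 1 le_rfl)
  have hlogs : Summable fun p : Nat.Primes => -log (1 - zz χ p s) :=
    DirichletCharacter.summable_neg_log_one_sub_mul_prime_cpow χ hs1
  have hzs : Summable fun p : Nat.Primes => zz χ p s := by
    refine Summable.of_norm_bounded (g := fun p : Nat.Primes => (p : ℝ) ^ (-y))
      (Nat.Primes.summable_rpow.mpr (by linarith)) fun p => ?_
    have := zz_norm_le χ p p.2 s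
    rwa [hsre] at this
  have hdiff : ‖∑' p : Nat.Primes, (-log (1 - zz χ p s) - zz χ p s)‖ ≤ D := by
    refine tsum_of_norm_bounded hDs.hasSum fun p => ?_
    refine (log_one_sub_bound _ (hzh p)).trans ?_
    exact pow_le_pow_left₀ (norm_nonneg _) (hz p) 2
  rw [hlogs.tsum_sub hzs] at hdiff
  have h5 := (Complex.abs_re_le_norm _).trans hdiff
  rw [Complex.sub_re] at h5
  have h6 := (abs_le.mp h5).2
  have h7 : (∑' p : Nat.Primes, -log (1 - zz χ p s)).re = Real.log ‖LSeries (fun n : ℕ => χ n) s‖ := by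
    rw [hL]; rfl
  rw [h7] at h6
  linarith

end Pool.T6.H82.KS
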