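import Mathlib
import Pool.Agent.T6.H82.KS.Low

/-!
The corrected logarithm: local estimates, analyticity and a lower bound near -1/2
-/

set_option autoImplicit false
set_option linter.unusedSectionVars false

open Complex Finset Filter Topology

namespace Pool.T6.H82.KS

lemma log_one_sub_bound3 (z : ℂ) (hz : ‖z‖ ≤ 1 / 4) :
    ‖-log (1 - z) - z - z ^ 2 / 2‖ ≤ ‖z‖ ^ 3 := by
  have h := Complex.norm_log_sub_logTaylor_le 2 (z := -z) (by rw [norm_neg]; linarith)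
  have e : Complex.logTaylor 3 (-z) = -z - z ^ 2 / 2 := by
    rw [Complex.logTaylor_succ, Complex.logTaylor_succ, Complex.logTaylor_succ,
      Complex.logTaylor_zero]
    simp
    ring
  rw [show (2 : ℕ) + 1 = 3 from rfl, e, norm_neg] at h
  have e2 : -log (1 - z) - z - z ^ 2 / 2 = -(log (1 + -z) - (-z - z ^ 2 / 2)) := by ring_nf
  rw [e2, norm_neg]
  refine h.trans ?_
  have h3 : (1 - ‖z‖)⁻¹ ≤ 2 := by
    rw [inv_le_comm₀ (by linarith) (by norm_num)]; linarith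
  norm_num
  have h4 : 0 ≤ ‖z‖ ^ 3 := by positivity
  nlinarith

section
variable {ι : Type} [Fintype ι]

/-- the corrected logarithm of one Euler factor -/
noncomputable def el (c : ι → ℝ) (z : ι → ℂ) : ℂ :=
  -log (1 - -(∑ i, (c i : ℂ) * z i)) + ∑ i, (c i : ℂ) * -log (1 - z i)

/-- its second order term -/
noncomputable def Q2 (c : ι → ℝ) (z : ι → ℂ) : ℂ :=
  ((∑ i, (c i : ℂ) * z i) ^ 2 + ∑ i, (c i : ℂ) * z i ^ 2) / 2

lemma norm_wsum_le (c : ι → ℝ) (hc : ∀ i, 0 ≤ c i) (z : ι → ℂ) (t : ℝ)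
    (hz : ∀ i, ‖z i‖ ≤ t) : ‖∑ i, (c i : ℂ) * z i‖ ≤ (∑ i, c i) * t := by
  calc ‖∑ i, (c i : ℂ) * z i‖ ≤ ∑ i : ι, ‖(c i : ℂ) * z i‖ := norm_sum_le _ _
    _ ≤ ∑ i : ι, c i * t := Finset.sum_le_sum fun i _ => by
        rw [norm_mul, Complex.norm_real, Real.norm_eq_abs, abs_of_nonneg (hc i)]
        exact mul_le_mul_of_nonneg_left (hz i) (hc i)
    _ = _ := by rw [Finset.sum_mul]

lemma el_sub_Q2 (c : ι → ℝ) (hc : ∀ i, 0 ≤ c i) (z : ι → ℂ) (t : ℝ) (ht0 : 0 ≤ t)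
    (hz : ∀ i, ‖z i‖ ≤ t) (ht : ((∑ i, c i) + 1) * t ≤ 1 / 4) :
    ‖el c z - Q2 c z‖ ≤ ((∑ i, c i) ^ 3 + ∑ i, c i) * t ^ 3 := by
  set r : ℝ := ∑ i, c i with hr
  have hr0 : 0 ≤ r := Finset.sum_nonneg fun i _ => hc i
  set S : ℂ := ∑ i, (c i : ℂ) * z i with hS
  have hSn : ‖S‖ ≤ r * t := norm_wsum_le c hc z t hz
  have ht4 : t ≤ 1 / 4 := by nlinarith
  have hrt : r * t ≤ 1 / 4 := by nlinarith
  have h1 := log_one_sub_bound3 (-S) (by rw [norm_neg]; exact hSn.trans hrt)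
  have h1' : ‖-log (1 - -S) - -S - (-S) ^ 2 / 2‖ ≤ r ^ 3 * t ^ 3 := by
    refine h1.trans ?_
    rw [norm_neg, ← mul_pow]
    exact pow_le_pow_left₀ (norm_nonneg _) hSn 3
  have h2 : ‖∑ i : ι, (c i : ℂ) * (-log (1 - z i) - z i - z i ^ 2 / 2)‖ ≤ r * t ^ 3 := by
    refine norm_wsum_le c hc _ _ fun i => ?_
    refine (log_one_sub_bound3 (z i) ((hz i).trans ht4)).trans ?_
    exact pow_le_pow_left₀ (norm_nonneg _) (hz i) 3
  have e : el c z - Q2 c z = (-log (1 - -S) - -S - (-S) ^ 2 / 2)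
        + ∑ i : ι, (c i : ℂ) * (-log (1 - z i) - z i - z i ^ 2 / 2) := by
    unfold el Q2
    simp_rw [mul_sub]
    rw [Finset.sum_sub_distrib, Finset.sum_sub_distrib, ← hS]
    have : ∑ x, (c x : ℂ) * (z x ^ 2 / 2) = (∑ x, (c x : ℂ) * z x ^ 2) / 2 := by
      rw [Finset.sum_div]
      exact Finset.sum_congr rfl fun i _ => by ring
    rw [this]
    ring
  rw [e]
  refine (norm_add_le _ _).trans ?_
  linarith [h1', h2]

lemma Q2_bound (c : ι → ℝ) (hc : ∀ i, 0 ≤ c i) (z : ι → ℂ) (t : ℝ)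
    (hz : ∀ i, ‖z i‖ ≤ t) : ‖Q2 c z‖ ≤ ((∑ i, c i) ^ 2 + ∑ i, c i) * t ^ 2 := by
  set r : ℝ := ∑ i, c i with hr
  have hSn := norm_wsum_le c hc z t hz
  have h2 : ‖∑ i : ι, (c i : ℂ) * z i ^ 2‖ ≤ r * t ^ 2 := by
    refine norm_wsum_le c hc _ _ fun i => ?_
    rw [norm_pow]
    exact pow_le_pow_left₀ (norm_nonneg _) (hz i) 2
  have h1 : ‖(∑ i, (c i : ℂ) * z i) ^ 2‖ ≤ r ^ 2 * t ^ 2 := by
    rw [norm_pow, ← mul_pow]
    exact pow_le_pow_left₀ (norm_nonneg _) hSn 2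
  unfold Q2
  rw [norm_div, Complex.norm_ofNat]
  have h3 := norm_add_le ((∑ i, (c i : ℂ) * z i) ^ 2) (∑ i : ι, (c i : ℂ) * z i ^ 2)
  have h4 : 0 ≤ ‖(∑ i, (c i : ℂ) * z i) ^ 2 + ∑ i : ι, (c i : ℂ) * z i ^ 2‖ := norm_nonneg _
  linarith

end

variable {q : ℕ} [NeZero q] {ι : Type} [Fintype ι]

/-- the family of Euler factors at `s` -/
noncomputable def zf (χ : ι → DirichletCharacter ℂ q) (γ : ι → ℝ) (p : ℕ) (s : ℂ) (i : ι) : ℂ :=
  zz (χ i) p (1 + s - I * γ i)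

/-- all primes up to `16 (∑ c + 1) ^ 2` divide the modulus -/
def Small (q : ℕ) (c : ι → ℝ) : Prop :=
  ∀ p : ℕ, p.Prime → (p : ℝ) < 16 * ((∑ i, c i) + 1) ^ 2 → p ∣ q

lemma zf_norm_le (χ : ι → DirichletCharacter ℂ q) (γ : ι → ℝ) (p : ℕ) (hp : p.Prime) (s : ℂ)
    (i : ι) : ‖zf χ γ p s i‖ ≤ (p : ℝ) ^ (-(1 + s.re)) := by
  refine (zz_norm_le (χ i) p hp _).trans (le_of_eq ?_)
  congr 1
  simp

lemma zf_zero (χ : ι → DirichletCharacter ℂ q) (γ : ι → ℝ) (p : ℕ) (hp : p.Prime) (hpq : p ∣ q)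
    (s : ℂ) (i : ι) : zf χ γ p s i = 0 := by
  unfold zf zz
  have : χ i (p : ZMod q) = 0 := by
    refine (χ i).map_nonunit ?_
    rw [ZMod.isUnit_prime_iff_not_dvd hp]
    exact fun h => h hpq
  rw [this, zero_mul]

variable (c : ι → ℝ) (hc : ∀ i, 0 < c i) (hq : Small q c)
  (χ : ι → DirichletCharacter ℂ q) (γ : ι → ℝ)

include hc hq in
lemma exists_t (p : ℕ) (hp : p.Prime) (s : ℂ) (hs : -(1 / 2) < s.re) :
    ∃ t : ℝ, 0 ≤ t ∧ (∀ i, ‖zf χ γ p s i‖ ≤ t) ∧ ((∑ i, c i) + 1) * t ≤ 1 / 4 ∧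
      t ≤ (p : ℝ) ^ (-(1 + s.re)) := by
  have hr0 : 0 ≤ ∑ i, c i := Finset.sum_nonneg fun i _ => (hc i).le
  by_cases hpq : p ∣ q
  · refine ⟨0, le_rfl, fun i => ?_, by norm_num, by positivity⟩
    rw [zf_zero χ γ p hp hpq, norm_zero]
  · refine ⟨(p : ℝ) ^ (-(1 + s.re)), by positivity, zf_norm_le χ γ p hp s, ?_, le_rfl⟩
    have h2 : (16 : ℝ) * ((∑ i, c i) + 1) ^ 2 ≤ p := by
      by_contra h
      exact hpq (hq p hp (not_le.mp h))
    have hp1 : (1 : ℝ) ≤ p := by exact_mod_cast hp.one_lt.le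
    have hp0 : (0 : ℝ) < p := by linarith
    have h3 : (p : ℝ) ^ (-(1 + s.re)) ≤ (p : ℝ) ^ (-(1/2) : ℝ) :=
      Real.rpow_le_rpow_of_exponent_le hp1 (by linarith)
    have h4 : (p : ℝ) ^ (-(1/2) : ℝ) = (Real.sqrt p)⁻¹ := by
      rw [Real.rpow_neg hp0.le, ← Real.sqrt_eq_rpow]
    have h5 : 4 * ((∑ i, c i) + 1) ≤ Real.sqrt p := by
      apply Real.le_sqrt_of_sq_le
      nlinarith
    have h6 : 0 < Real.sqrt p := Real.sqrt_pos.mpr hp0
    have h7 : (0 : ℝ) < (∑ i, c i) + 1 := by positivity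
    calc ((∑ i, c i) + 1) * (p : ℝ) ^ (-(1 + s.re))
        ≤ ((∑ i, c i) + 1) * (Real.sqrt p)⁻¹ := by
          rw [← h4]; gcongr
      _ ≤ 1 / 4 := by
          rw [← div_eq_mul_inv, div_le_iff₀ h6]
          linarith

/-- the corrected logarithm -/
noncomputable def T (s : ℂ) : ℂ := ∑' p : Nat.Primes, el c (zf χ γ p s)

include hc hq in
lemma el_bound (p : ℕ) (hp : p.Prime) (s : ℂ) (hs : -(1 / 2) < s.re) :
    ‖el c (zf χ γ p s)‖ ≤ (((∑ i, c i) ^ 3 + ∑ i, c i)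
      + ((∑ i, c i) ^ 2 + ∑ i, c i)) * ((p : ℝ) ^ (-(1 + s.re))) ^ 2 := by
  have hr0 : 0 ≤ ∑ i, c i := Finset.sum_nonneg fun i _ => (hc i).le
  obtain ⟨t, ht0, hz, ht, htp⟩ := exists_t c hc hq χ γ p hp s hs
  have h1 := el_sub_Q2 c (fun i => (hc i).le) (zf χ γ p s) t ht0 hz ht
  have h2 := Q2_bound c (fun i => (hc i).le) (zf χ γ p s) t hz
  have h3 : ‖el c (zf χ γ p s)‖ ≤ ‖el c (zf χ γ p s) - Q2 c (zf χ γ p s)‖
      + ‖Q2 c (zf χ γ p s)‖ := by
    have := norm_add_le (el c (zf χ γ p s) - Q2 c (zf χ γ p s)) (Q2 c (zf χ γ p s))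
    rwa [sub_add_cancel] at this
  have ht1 : t ≤ 1 := by nlinarith
  have h4 : t ^ 3 ≤ t ^ 2 := pow_le_pow_of_le_one ht0 ht1 (by norm_num)
  have h5 : t ^ 2 ≤ ((p : ℝ) ^ (-(1 + s.re))) ^ 2 := pow_le_pow_left₀ ht0 htp 2
  have hc1 : (0 : ℝ) ≤ (∑ i, c i) ^ 3 + ∑ i, c i := by positivity
  have hc2 : (0 : ℝ) ≤ (∑ i, c i) ^ 2 + ∑ i, c i := by positivity
  calc ‖el c (zf χ γ p s)‖ ≤ ((∑ i, c i) ^ 3 + ∑ i, c i) * t ^ 3
        + ((∑ i, c i) ^ 2 + ∑ i, c i) * t ^ 2 := by linarith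
    _ ≤ ((∑ i, c i) ^ 3 + ∑ i, c i) * ((p : ℝ) ^ (-(1 + s.re))) ^ 2
        + ((∑ i, c i) ^ 2 + ∑ i, c i) * ((p : ℝ) ^ (-(1 + s.re))) ^ 2 := by
        gcongr
        exact h4.trans h5
    _ = _ := by ring

lemma sq_summable (σ : ℝ) (hσ : -(1 / 2) < σ) :
    Summable fun p : Nat.Primes => ((p : ℝ) ^ (-(1 + σ))) ^ 2 := by
  have := Nat.Primes.summable_rpow (r := -(2 * (1 + σ))) |>.mpr (by linarith)
  refine this.congr fun p => ?_
  rw [← Real.rpow_natCast, ← Real.rpow_mul (by positivity)]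
  congr 1
  push_cast
  ring

include hc hq in
lemma el_summable (s : ℂ) (hs : -(1 / 2) < s.re) :
    Summable fun p : Nat.Primes => el c (zf χ γ p s) :=
  Summable.of_norm_bounded ((sq_summable s.re hs).mul_left _)
    fun p => el_bound c hc hq χ γ p p.2 s hs

lemma zf_diff (p : ℕ) (hp : p.Prime) (i : ι) :
    Differentiable ℂ fun s => zf χ γ p s i := by
  unfold zf zz
  have hp0 : (p : ℂ) ≠ 0 := by exact_mod_cast hp.ne_zero
  intro s
  refine DifferentiableAt.const_mul ?_ _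
  refine DifferentiableAt.const_cpow ?_ (Or.inl hp0)
  fun_prop

include hc hq in
lemma logzf_diff (p : ℕ) (hp : p.Prime) (s : ℂ) (hs : -(1 / 2) < s.re) (i : ι) :
    DifferentiableAt ℂ (fun s => -log (1 - zf χ γ p s i)) s := by
  obtain ⟨t, ht0, hz, ht, htp⟩ := exists_t c hc hq χ γ p hp s hs
  have hr0 : 0 ≤ ∑ i, c i := Finset.sum_nonneg fun i _ => (hc i).le
  have ht1 : t < 1 := by nlinarith
  refine DifferentiableAt.neg ?_
  refine DifferentiableAt.clog ?_ ?_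
  · exact (differentiableAt_const _).sub (zf_diff χ γ p hp i s)
  · rw [sub_eq_add_neg]
    refine Complex.mem_slitPlane_of_norm_lt_one ?_
    rw [norm_neg]
    exact lt_of_le_of_lt (hz i) ht1

include hc hq in
lemma el_diff (p : ℕ) (hp : p.Prime) (s : ℂ) (hs : -(1 / 2) < s.re) :
    DifferentiableAt ℂ (fun s => el c (zf χ γ p s)) s := by
  obtain ⟨t, ht0, hz, ht, htp⟩ := exists_t c hc hq χ γ p hp s hs
  have hr0 : 0 ≤ ∑ i, c i := Finset.sum_nonneg fun i _ => (hc i).le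
  have hrt : (∑ i, c i) * t < 1 := by nlinarith
  have hSn := norm_wsum_le c (fun i => (hc i).le) (zf χ γ p s) t hz
  have hsum : DifferentiableAt ℂ (fun s => ∑ i, (c i : ℂ) * zf χ γ p s i) s :=
    DifferentiableAt.fun_sum fun i _ => (zf_diff χ γ p hp i s).const_mul _
  unfold el
  refine DifferentiableAt.add ?_ ?_
  · refine DifferentiableAt.neg ?_
    refine DifferentiableAt.clog ?_ ?_
    · exact (differentiableAt_const _).sub hsum.neg
    · rw [sub_neg_eq_add]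
      exact Complex.mem_slitPlane_of_norm_lt_one (lt_of_le_of_lt hSn hrt)
  · refine DifferentiableAt.fun_sum fun i _ => ?_
    exact (logzf_diff c hc hq χ γ p hp s hs i).const_mul _

include hc hq in
lemma T_diff (s : ℂ) (hs : -(1 / 2) < s.re) : DifferentiableAt ℂ (T c χ γ) s := by
  obtain ⟨σ, hσ1, hσ2⟩ := exists_between hs
  have hr0 : 0 ≤ ∑ i, c i := Finset.sum_nonneg fun i _ => (hc i).le
  have hopen : IsOpen {w : ℂ | σ < w.re} := isOpen_lt continuous_const Complex.continuous_re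
  have h := differentiableOn_tsum_of_summable_norm
    (F := fun (p : Nat.Primes) (w : ℂ) => el c (zf χ γ p w))
    (u := fun p : Nat.Primes => (((∑ i, c i) ^ 3 + ∑ i, c i)
      + ((∑ i, c i) ^ 2 + ∑ i, c i)) * ((p : ℝ) ^ (-(1 + σ))) ^ 2)
    ((sq_summable σ hσ1).mul_left _)
    (fun p w hw => (el_diff c hc hq χ γ p p.2 w (lt_trans hσ1 hw)).differentiableWithinAt)
    hopen
    (fun p w hw => by
      refine (el_bound c hc hq χ γ p p.2 w (lt_trans hσ1 hw)).trans ?_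
      have hw' : σ < w.re := hw
      have hp1 : (1 : ℝ) ≤ (p : ℝ) := by exact_mod_cast p.2.one_lt.le
      gcongr)
  exact (h s hσ2).differentiableAt (hopen.mem_nhds hσ2)

/-- the logarithm of one L-function -/
noncomputable def La (i : ι) (s : ℂ) : ℂ := ∑' p : Nat.Primes, -log (1 - zf χ γ p s i)

lemma norm_log_one_sub_le (z : ℂ) (hz : ‖z‖ ≤ 1 / 2) : ‖-log (1 - z)‖ ≤ 2 * ‖z‖ := by
  have h := log_one_sub_bound z hz
  have h2 : ‖-log (1 - z)‖ ≤ ‖-log (1 - z) - z‖ + ‖z‖ := by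
    have := norm_add_le (-log (1 - z) - z) z
    rwa [sub_add_cancel] at this
  nlinarith [norm_nonneg z]

include hc hq in
lemma La_diff (i : ι) (s : ℂ) (hs : 0 < s.re) : DifferentiableAt ℂ (La χ γ i) s := by
  obtain ⟨σ, hσ1, hσ2⟩ := exists_between hs
  have hopen : IsOpen {w : ℂ | σ < w.re} := isOpen_lt continuous_const Complex.continuous_re
  have h := differentiableOn_tsum_of_summable_norm
    (F := fun (p : Nat.Primes) (w : ℂ) => -log (1 - zf χ γ p w i))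
    (u := fun p : Nat.Primes => 2 * (p : ℝ) ^ (-(1 + σ)))
    ((Nat.Primes.summable_rpow.mpr (by linarith)).mul_left 2)
    (fun p w hw => (logzf_diff c hc hq χ γ p p.2 w
      (by have : σ < w.re := hw; linarith) i).differentiableWithinAt)
    hopen
    (fun p w hw => by
      have hw' : σ < w.re := hw
      have hz := zf_norm_le χ γ p p.2 w i
      refine (norm_log_one_sub_le _ (hz.trans (rpow_le_half p p.2 _ (by linarith)))).trans ?_
      have hp1 : (1 : ℝ) ≤ (p : ℝ) := by exact_mod_cast p.2.one_lt.le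
      have h2 : (p : ℝ) ^ (-(1 + w.re)) ≤ (p : ℝ) ^ (-(1 + σ)) :=
        Real.rpow_le_rpow_of_exponent_le hp1 (by linarith)
      linarith)
  exact (h s hσ2).differentiableAt (hopen.mem_nhds hσ2)

open Classical in
/-- the indicator of the trivial untwisted character -/
noncomputable def ee (i : ι) : ℝ := if χ i = 1 ∧ γ i = 0 then 1 else 0

lemma ee_mul (i j : ι) :
    (ee χ γ i * ee χ γ j = 1 ∧ χ i * χ j = 1 ∧ γ i + γ j = 0) ∨ ee χ γ i * ee χ γ j = 0 := by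
  unfold ee
  by_cases h1 : χ i = 1 ∧ γ i = 0
  · by_cases h2 : χ j = 1 ∧ γ j = 0
    · left
      rw [if_pos h1, if_pos h2, h1.1, h2.1, h1.2, h2.2]
      simp
    · right; rw [if_neg h2, mul_zero]
  · right; rw [if_neg h1, zero_mul]

lemma ee_sq (i : ι) : ee χ γ i * ee χ γ i = ee χ γ i := by
  unfold ee
  split_ifs <;> norm_num

lemma zf_mul (p : ℕ) (hp : p.Prime) (x : ℝ)
    (i j : ι) : zf χ γ p x i * zf χ γ p x j
      = zz (χ i * χ j) p (((2 + 2 * x : ℝ) : ℂ) - I * ((γ i + γ j : ℝ) : ℂ)) := by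
  unfold zf zz
  have hp0 : (p : ℂ) ≠ 0 := by exact_mod_cast hp.ne_zero
  have e : (p : ℂ) ^ (-(1 + (x : ℂ) - I * γ i)) * (p : ℂ) ^ (-(1 + (x : ℂ) - I * γ j))
      = (p : ℂ) ^ (-(((2 + 2 * x : ℝ) : ℂ) - I * ((γ i + γ j : ℝ) : ℂ))) := by
    rw [← Complex.cpow_add _ _ hp0]
    congr 1
    push_cast
    ring
  rw [MulChar.mul_apply, ← e]
  ring

include hc hq in
/-- lower bound of the corrected logarithm near `-1/2` -/
theorem T_low (hab : 1 ≤ ∑ i, c i * ee χ γ i) :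
    ∃ C : ℝ, ∀ x : ℝ, -(1 / 2) < x → x < -(1 / 4) →
      Real.log (1 / (1 + 2 * x)) - C ≤ (T c χ γ x).re := by
  have hlow : ∀ i j : ι, ∃ C : ℝ, ∀ y : ℝ, 1 < y → y < 3 / 2 →
      (ee χ γ i * ee χ γ j) * Real.log (1 / (y - 1)) - C
        ≤ (∑' p : Nat.Primes, zz (χ i * χ j) p (y - I * ((γ i + γ j : ℝ) : ℂ))).re :=
    fun i j => prime_sum_low (χ i * χ j) (γ i + γ j) _ (ee_mul χ γ i j)
  choose C hC using hlow
  set D : ℝ := ∑' p : Nat.Primes, (p : ℝ) ^ (-(3 / 2) : ℝ) with hD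
  have hDs : Summable fun p : Nat.Primes => (p : ℝ) ^ (-(3 / 2) : ℝ) :=
    Nat.Primes.summable_rpow.mpr (by norm_num)
  set r : ℝ := ∑ i, c i with hr
  have hr0 : 0 ≤ r := Finset.sum_nonneg fun i _ => (hc i).le
  refine ⟨(r ^ 3 + r) * D + ((∑ i, ∑ j, (c i * c j) * C i j) + ∑ i, c i * C i i) / 2,
    fun x hx1 hx2 => ?_⟩
  set y : ℝ := 2 + 2 * x with hy
  have hy1 : 1 < y := by rw [hy]; linarith
  have hy2 : y < 3 / 2 := by rw [hy]; linarith
  have hxr : -(1 / 2) < ((x : ℝ) : ℂ).re := by rw [Complex.ofReal_re]; exact hx1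
  -- the second order sum
  have hzzs : ∀ i j : ι, Summable fun p : Nat.Primes =>
      zz (χ i * χ j) p (y - I * ((γ i + γ j : ℝ) : ℂ)) := by
    intro i j
    refine Summable.of_norm_bounded (g := fun p : Nat.Primes => (p : ℝ) ^ (-y))
      (Nat.Primes.summable_rpow.mpr (by linarith)) fun p => ?_
    refine (zz_norm_le (χ i * χ j) p p.2 _).trans (le_of_eq ?_)
    congr 1
    simp
  have hQ : ∀ p : Nat.Primes, Q2 c (zf χ γ p x)
      = ((∑ i, ∑ j, ((c i * c j : ℝ) : ℂ) * zz (χ i * χ j) p (y - I * ((γ i + γ j : ℝ) : ℂ)))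
        + ∑ i, (c i : ℂ) * zz (χ i * χ i) p (y - I * ((γ i + γ i : ℝ) : ℂ))) / 2 := by
    intro p
    unfold Q2
    rw [pow_two, Finset.sum_mul_sum]
    congr 2
    · refine Finset.sum_congr rfl fun i _ => Finset.sum_congr rfl fun j _ => ?_
      rw [← zf_mul χ γ p p.2 x]
      push_cast
      ring
    · refine Finset.sum_congr rfl fun i _ => ?_
      rw [pow_two, zf_mul χ γ p p.2 x]
  have hQsum : HasSum (fun p : Nat.Primes => Q2 c (zf χ γ p x))
      (((∑ i, ∑ j, ((c i * c j : ℝ) : ℂ) * ∑' p : Nat.Primes,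
          zz (χ i * χ j) p (y - I * ((γ i + γ j : ℝ) : ℂ)))
        + ∑ i, (c i : ℂ) * ∑' p : Nat.Primes,
          zz (χ i * χ i) p (y - I * ((γ i + γ i : ℝ) : ℂ))) / 2) := by
    simp_rw [hQ]
    refine HasSum.div_const ?_ _
    refine HasSum.add ?_ ?_
    · exact hasSum_sum fun i _ => hasSum_sum fun j _ => (hzzs i j).hasSum.mul_left _
    · exact hasSum_sum fun i _ => (hzzs i i).hasSum.mul_left _
  have hels := el_summable c hc hq χ γ x hxr
  have hdiff : ‖∑' p : Nat.Primes, (el c (zf χ γ p x) - Q2 c (zf χ γ p x))‖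
      ≤ (r ^ 3 + r) * D := by
    refine tsum_of_norm_bounded (hDs.hasSum.mul_left (r ^ 3 + r)) fun p => ?_
    obtain ⟨t, ht0, hz, ht, htp⟩ := exists_t c hc hq χ γ p p.2 x hxr
    refine (el_sub_Q2 c (fun i => (hc i).le) (zf χ γ p x) t ht0 hz ht).trans ?_
    have hp1 : (1 : ℝ) ≤ (p : ℝ) := by exact_mod_cast p.2.one_lt.le
    have h3 : t ^ 3 ≤ (p : ℝ) ^ (-(3 / 2) : ℝ) := by
      refine (pow_le_pow_left₀ ht0 htp 3).trans ?_
      rw [← Real.rpow_natCast, ← Real.rpow_mul (by positivity)]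
      refine Real.rpow_le_rpow_of_exponent_le hp1 ?_
      rw [Complex.ofReal_re]
      push_cast
      linarith
    have hr1 : 0 ≤ r ^ 3 + r := by positivity
    exact mul_le_mul_of_nonneg_left h3 hr1
  rw [hels.tsum_sub hQsum.summable, hQsum.tsum_eq] at hdiff
  have h5 := (Complex.abs_re_le_norm _).trans hdiff
  rw [Complex.sub_re] at h5
  have h6 := (abs_le.mp h5).1
  have hTre : (T c χ γ x).re = (∑' p : Nat.Primes, el c (zf χ γ p x)).re := rfl
  -- real part of the second order sum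
  set LL : ℝ := Real.log (1 / (y - 1)) with hL
  have hL0 : 0 ≤ LL := by
    rw [hL]
    refine Real.log_nonneg ?_
    rw [one_le_div (by linarith)]
    linarith
  set W : ℂ := ((∑ i, ∑ j, ((c i * c j : ℝ) : ℂ) * ∑' p : Nat.Primes,
          zz (χ i * χ j) p (y - I * ((γ i + γ j : ℝ) : ℂ)))
        + ∑ i, (c i : ℂ) * ∑' p : Nat.Primes,
          zz (χ i * χ i) p (y - I * ((γ i + γ i : ℝ) : ℂ))) / 2 with hW
  have hWre : W.re = ((∑ i, ∑ j, (c i * c j) * (∑' p : Nat.Primes,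
        zz (χ i * χ j) p (y - I * ((γ i + γ j : ℝ) : ℂ))).re)
        + ∑ i, c i * (∑' p : Nat.Primes,
          zz (χ i * χ i) p (y - I * ((γ i + γ i : ℝ) : ℂ))).re) / 2 := by
    rw [hW, show (2 : ℂ) = ((2 : ℝ) : ℂ) by norm_num, Complex.div_ofReal_re, Complex.add_re,
      Complex.re_sum, Complex.re_sum]
    simp_rw [Complex.re_sum, Complex.re_ofReal_mul]
  set a : ℝ := ∑ i, c i * ee χ γ i with ha
  have h7 : a ^ 2 * LL - ∑ i, ∑ j, (c i * c j) * C i j ≤ ∑ i, ∑ j, (c i * c j) *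
      (∑' p : Nat.Primes, zz (χ i * χ j) p (y - I * ((γ i + γ j : ℝ) : ℂ))).re := by
    have : a ^ 2 * LL - ∑ i, ∑ j, (c i * c j) * C i j
        = ∑ i, ∑ j, (c i * c j) * ((ee χ γ i * ee χ γ j) * LL - C i j) := by
      simp_rw [mul_sub, Finset.sum_sub_distrib]
      rw [ha, pow_two, Finset.sum_mul_sum, Finset.sum_mul]
      congr 1
      refine Finset.sum_congr rfl fun i _ => ?_
      rw [Finset.sum_mul]
      exact Finset.sum_congr rfl fun j _ => by ring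
    rw [this]
    exact Finset.sum_le_sum fun i _ => Finset.sum_le_sum fun j _ =>
      mul_le_mul_of_nonneg_left (hC i j y hy1 hy2) (mul_nonneg (hc i).le (hc j).le)
  have h8 : a * LL - ∑ i, c i * C i i ≤ ∑ i, c i * (∑' p : Nat.Primes,
        zz (χ i * χ i) p (y - I * ((γ i + γ i : ℝ) : ℂ))).re := by
    have : a * LL - ∑ i, c i * C i i = ∑ i, c i * ((ee χ γ i * ee χ γ i) * LL - C i i) := by
      simp_rw [ee_sq, mul_sub, Finset.sum_sub_distrib]
      rw [ha, Finset.sum_mul]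
      congr 1
      exact Finset.sum_congr rfl fun j _ => by ring
    rw [this]
    exact Finset.sum_le_sum fun i _ =>
      mul_le_mul_of_nonneg_left (hC i i y hy1 hy2) (hc i).le
  have h9 : ((a ^ 2 * LL - ∑ i, ∑ j, (c i * c j) * C i j) + (a * LL - ∑ i, c i * C i i)) / 2
      ≤ W.re := by
    rw [hWre]
    gcongr
  have h10 : LL ≤ (a ^ 2 * LL + a * LL) / 2 := by
    have h11 : LL ≤ a * LL := by nlinarith
    have h12 : a * LL ≤ a ^ 2 * LL := by nlinarith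
    linarith
  have h13 : 1 + 2 * x = y - 1 := by rw [hy]; ring
  rw [h13, ← hL, hTre]
  have h14 : ((a ^ 2 * LL - ∑ i, ∑ j, (c i * c j) * C i j) + (a * LL - ∑ i, c i * C i i)) / 2
      = (a ^ 2 * LL + a * LL) / 2
        - ((∑ i, ∑ j, (c i * c j) * C i j) + ∑ i, c i * C i i) / 2 := by
    ring
  rw [h14] at h9
  linarith

end Pool.T6.H82.KS
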