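import Mathlib
import Pool.Agent.H232R3.CMOFinal
import Pool.Agent.T6.H82.KS.Loc
import Pool.Agent.T6.H82.KS.Cont

/-!
The model function
-/

set_option autoImplicit false
set_option linter.unusedSectionVars false

open Complex Finset Filter Topology ArithmeticFunction
open Pool.H232R3

namespace Pool.T6.H82.KS

/-- twist by a power -/
noncomputable def twA (g : ArithmeticFunction ℂ) (a : ℂ) : ArithmeticFunction ℂ :=
  ⟨fun n => g n * (n : ℂ) ^ a, by simp⟩

lemma twA_apply (g : ArithmeticFunction ℂ) (a : ℂ) (n : ℕ) : twA g a n = g n * (n : ℂ) ^ a := rfl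

lemma twA_one (g : ArithmeticFunction ℂ) (h1 : g 1 = 1) (a : ℂ) : twA g a 1 = 1 := by
  rw [twA_apply, h1]; simp

lemma twA_mul (g : ArithmeticFunction ℂ) (hg : ∀ m n, g (m * n) = g m * g n) (a : ℂ) (m n : ℕ) :
    twA g a (m * n) = twA g a m * twA g a n := by
  rw [twA_apply, twA_apply, twA_apply, hg, Nat.cast_mul, Complex.natCast_mul_natCast_cpow]
  ring

lemma quo_one (h : ArithmeticFunction ℂ) : quo 1 h = h := by
  unfold quo
  have : muf (1 : ArithmeticFunction ℂ) = 1 := by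
    ext n
    rw [muf_apply]
    by_cases hn : n = 1
    · rw [hn]; simp
    · rw [one_apply_ne hn, mul_zero]
  rw [this, mul_one]

lemma one_mul_cm (m n : ℕ) : (1 : ArithmeticFunction ℂ) (m * n)
    = (1 : ArithmeticFunction ℂ) m * (1 : ArithmeticFunction ℂ) n := by
  by_cases hm : m = 1
  · by_cases hn : n = 1
    · rw [hm, hn]; simp
    · rw [hm, one_mul, one_apply_ne hn, mul_zero]
  · have : m * n ≠ 1 := fun h => hm (Nat.eq_one_of_mul_eq_one_right h)
    rw [one_apply_ne this, one_apply_ne hm, zero_mul]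

/-- a criterion for absolute convergence of the Dirichlet series of a completely multiplicative
function -/
lemma cm_summable (g : ArithmeticFunction ℂ) (h1 : g 1 = 1) (hg : ∀ m n, g (m * n) = g m * g n)
    (σ : ℝ) (hlt : ∀ p : ℕ, p.Prime → ‖g p‖ * (p : ℝ) ^ (-σ) ≤ 1 / 2)
    (hS : Summable fun p : Nat.Primes => ‖g p‖ * (p : ℝ) ^ (-σ)) :
    Summable fun n : ℕ => ‖g n‖ * (n : ℝ) ^ (-σ) := by
  set a : ℂ := ((-(σ + 1/2) : ℝ) : ℂ) with ha
  have hkey : ∀ n : ℕ, n ≠ 0 → ‖twA g a n‖ * Real.sqrt n = ‖g n‖ * (n : ℝ) ^ (-σ) := by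
    intro n hn
    have hn0 : (0 : ℝ) < n := by exact_mod_cast Nat.pos_of_ne_zero hn
    rw [twA_apply, norm_mul, Complex.norm_natCast_cpow_of_pos (Nat.pos_of_ne_zero hn), mul_assoc,
      ha, Complex.ofReal_re, Real.sqrt_eq_rpow, ← Real.rpow_add hn0]
    congr 2
    ring
  have hq := quo_summable 1 (twA g a) (by simp) one_mul_cm (twA_one g h1 a) (twA_mul g hg a)
    (fun p hp => by
      rw [hkey p hp.ne_zero]
      linarith [hlt p hp]) ?_
  · rw [quo_one] at hq
    refine hq.congr fun n => ?_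
    by_cases hn : n = 0
    · rw [hn]; simp
    · exact hkey n hn
  · have h3 : Summable fun p : ℕ => if p.Prime then 2 * (‖g p‖ * (p : ℝ) ^ (-σ)) else 0 := by
      have h4 := (hS.mul_left 2)
      have h5 := (summable_subtype_iff_indicator (f := fun p : ℕ => 2 * (‖g p‖ * (p : ℝ) ^ (-σ)))
        (s := {p : ℕ | p.Prime})).mp h4
      refine h5.congr fun p => ?_
      by_cases hp : p.Prime
      · rw [Set.indicator_of_mem (show p ∈ {p : ℕ | p.Prime} from hp), if_pos hp]
      · rw [Set.indicator_of_notMem (show p ∉ {p : ℕ | p.Prime} from hp), if_neg hp]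
    refine Summable.of_nonneg_of_le (fun p => ?_) (fun p => ?_) h3
    · split_ifs with hp
      · rw [hkey p hp.ne_zero]
        have := hlt p hp
        have h6 : 0 ≤ 1 - ‖g p‖ * (p : ℝ) ^ (-σ) := by linarith
        positivity
      · exact le_rfl
    · split_ifs with hp
      · rw [hkey p hp.ne_zero, one_apply_ne hp.ne_one, sub_zero, hkey p hp.ne_zero]
        have h7 := hlt p hp
        have h8 : 0 ≤ ‖g p‖ * (p : ℝ) ^ (-σ) := by positivity
        rw [div_le_iff₀ (by linarith)]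
        nlinarith
      · exact le_rfl

/-- the Euler product of a completely multiplicative function in logarithmic form -/
lemma cm_exp_log (g : ArithmeticFunction ℂ) (h1 : g 1 = 1) (hg : ∀ m n, g (m * n) = g m * g n)
    (s : ℂ) (hS : Summable fun n : ℕ => ‖g n‖ * (n : ℝ) ^ (-s.re)) :
    exp (∑' p : Nat.Primes, -log (1 - g p * (p : ℂ) ^ (-s))) = LSeries (fun n => g n) s ∧
      LSeriesSummable (fun n => g n) s := by
  let F : ℕ →*₀ ℂ :=
    { toFun := fun n => g n * (n : ℂ) ^ (-s)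
      map_zero' := by simp
      map_one' := by simp [h1]
      map_mul' := fun m n => by
        simp only [Nat.cast_mul, hg]
        rw [Complex.natCast_mul_natCast_cpow]
        ring }
  have hF : ∀ n : ℕ, F n = g n * (n : ℂ) ^ (-s) := fun n => rfl
  have hterm : ∀ n : ℕ, LSeries.term (fun n => g n) s n = F n := by
    intro n
    rw [LSeries.term_def, hF]
    split_ifs with h0
    · rw [h0]; simp
    · rw [Complex.cpow_neg]; rfl
  have hn : Summable (‖F ·‖) := by
    refine hS.congr fun n => ?_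
    rw [hF, norm_mul]
    by_cases h0 : n = 0
    · rw [h0]; simp
    · rw [Complex.norm_natCast_cpow_of_pos (Nat.pos_of_ne_zero h0), Complex.neg_re]
  refine ⟨?_, ?_⟩
  · have h := EulerProduct.exp_tsum_primes_log_eq_tsum (f := F) hn
    simp_rw [hF] at h
    rw [h]
    unfold LSeries
    exact tsum_congr fun n => (hterm n).symm
  · unfold LSeriesSummable
    exact hn.of_norm.congr fun n => (hterm n).symm

variable {q : ℕ} [NeZero q] {ι : Type} [Fintype ι]
variable (c : ι → ℝ) (hc : ∀ i, 0 < c i) (hq : Small q c)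
  (χ : ι → DirichletCharacter ℂ q) (γ : ι → ℝ)

/-- the values of the model function at the primes -/
noncomputable def uu (p : ℕ) : ℂ := -∑ i, (c i : ℂ) * zf χ γ p 0 i

lemma uu_cpow (p : ℕ) (hp : p.Prime) (s : ℂ) :
    uu c χ γ p * (p : ℂ) ^ (-s) = -∑ i, (c i : ℂ) * zf χ γ p s i := by
  unfold uu
  rw [neg_mul, Finset.sum_mul]
  congr 1
  refine Finset.sum_congr rfl fun i _ => ?_
  unfold zf zz
  have hp0 : (p : ℂ) ≠ 0 := by exact_mod_cast hp.ne_zero
  have e : (p : ℂ) ^ (-(1 + s - I * γ i)) = (p : ℂ) ^ (-(1 + 0 - I * γ i)) * (p : ℂ) ^ (-s) := by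
    rw [← Complex.cpow_add _ _ hp0]
    congr 1
    ring
  rw [e]
  ring

include hc hq in
lemma uu_norm (p : ℕ) (hp : p.Prime) (σ : ℝ) (hσ : -(1 / 2) < σ) :
    ‖uu c χ γ p‖ * (p : ℝ) ^ (-σ) ≤ 1 / 4 ∧
    ‖uu c χ γ p‖ * (p : ℝ) ^ (-σ) ≤ (∑ i, c i) * (p : ℝ) ^ (-(1 + σ)) := by
  have hr0 : 0 ≤ ∑ i, c i := Finset.sum_nonneg fun i _ => (hc i).le
  have e : ‖uu c χ γ p‖ * (p : ℝ) ^ (-σ) = ‖∑ i, (c i : ℂ) * zf χ γ p σ i‖ := by
    rw [← norm_neg (∑ i, (c i : ℂ) * zf χ γ p σ i), ← uu_cpow c χ γ p hp σ, norm_mul,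
      Complex.norm_natCast_cpow_of_pos hp.pos]
    simp
  obtain ⟨t, ht0, hz, ht, htp⟩ := exists_t c hc hq χ γ p hp (σ : ℂ)
    (by rw [Complex.ofReal_re]; exact hσ)
  have h := norm_wsum_le c (fun i => (hc i).le) (zf χ γ p σ) t hz
  rw [e]
  refine ⟨by nlinarith, h.trans ?_⟩
  rw [Complex.ofReal_re] at htp
  gcongr

/-- the logarithm of the Dirichlet series of the model function -/
noncomputable def LF (s : ℂ) : ℂ := ∑' p : Nat.Primes, -log (1 - uu c χ γ p * (p : ℂ) ^ (-s))

include hc hq in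
lemma T_eq (s : ℂ) (hs : 0 < s.re) : T c χ γ s = LF c χ γ s + ∑ i, (c i : ℂ) * La χ γ i s := by
  have h1 : Summable fun p : Nat.Primes => -log (1 - uu c χ γ p * (p : ℂ) ^ (-s)) := by
    have h2 : Summable fun p : Nat.Primes => uu c χ γ p * (p : ℂ) ^ (-s) := by
      refine Summable.of_norm_bounded (g := fun p : Nat.Primes =>
        (∑ i, c i) * (p : ℝ) ^ (-(1 + s.re)))
        ((Nat.Primes.summable_rpow.mpr (by linarith)).mul_left _) fun p => ?_
      rw [norm_mul, Complex.norm_natCast_cpow_of_pos p.2.pos, Complex.neg_re]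
      exact (uu_norm c hc hq χ γ p p.2 s.re (by linarith)).2
    exact h2.clog_one_sub.neg
  have h2 : ∀ i, Summable fun p : Nat.Primes => -log (1 - zf χ γ p s i) := by
    intro i
    refine DirichletCharacter.summable_neg_log_one_sub_mul_prime_cpow (χ i) ?_
    simpa using hs
  unfold T LF La
  simp_rw [← tsum_mul_left]
  rw [← Summable.tsum_finsetSum fun i _ => (h2 i).mul_left _,
    ← h1.tsum_add (summable_sum fun i _ => (h2 i).mul_left _)]
  refine tsum_congr fun p => ?_
  unfold el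
  rw [uu_cpow c χ γ p p.2 s]

lemma exp_La (i : ι) (s : ℂ) (hs : 0 < s.re) :
    Kf (χ i) (1 + s - I * γ i) = pf (χ i) (1 + s - I * γ i) * exp (La χ γ i s) := by
  have h1 : 1 < (1 + s - I * γ i).re := by simpa using hs
  rw [Kf_eq (χ i) _ h1, ← DirichletCharacter.LSeries_eulerProduct_exp_log (χ i) h1]
  rfl

include hc hq in
lemma exp_LF (s : ℂ) (hs : 0 < s.re)
    (hd : Tendsto (fun N : ℕ => Real.sqrt N * ‖SS (fun n => cmOf (uu c χ γ) n) N‖) atTop (𝓝 0)) :
    exp (LF c χ γ s) = s * Phi (fun n => cmOf (uu c χ γ) n) s := by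
  have hS := cm_summable (cmOf (uu c χ γ)) (cmOf_one _) (cmOf_mul _) s.re
    (fun p hp => by
      rw [cmOf_prime _ p hp]
      linarith [(uu_norm c hc hq χ γ p hp s.re (by linarith)).1])
    (by
      refine Summable.of_nonneg_of_le (fun p => by positivity) (fun p => ?_)
        ((Nat.Primes.summable_rpow.mpr (show -(1 + s.re) < -1 by linarith)).mul_left (∑ i, c i))
      rw [cmOf_prime _ p p.2]
      exact (uu_norm c hc hq χ γ p p.2 s.re (by linarith)).2)
  obtain ⟨h1, h2⟩ := cm_exp_log (cmOf (uu c χ γ)) (cmOf_one _) (cmOf_mul _) s hS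
  rw [← Phi_LSeries _ hd s hs h2, ← h1]
  unfold LF
  congr 1
  refine tsum_congr fun p => ?_
  rw [cmOf_prime _ p p.2]

end Pool.T6.H82.KS
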