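import Mathlib
import Pool.Agent.T6.H82.KS.Model

/-!
The contradiction for the model function and the class theorem
-/

set_option autoImplicit false
set_option linter.unusedSectionVars false

open Complex Finset Filter Topology ArithmeticFunction
open Pool.H232R3

namespace Pool.T6.H82.KS

variable {q : ℕ} [NeZero q] {ι : Type} [Fintype ι]
variable (c : ι → ℝ) (hc : ∀ i, 0 < c i) (hq : Small q c)
  (χ : ι → DirichletCharacter ℂ q) (γ : ι → ℝ)

lemma pf_low_zero (i : ι) : ∃ m : ℝ, 0 < m ∧ ∀ σ : ℝ, 0 < σ → σ < 1 →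
    m * σ ^ (ee χ γ i) ≤ ‖pf (χ i) (1 + σ - I * γ i)‖ := by
  unfold ee pf
  by_cases h1 : χ i = 1
  · by_cases h2 : γ i = 0
    · refine ⟨1, one_pos, fun σ h0 _ => ?_⟩
      rw [if_pos ⟨h1, h2⟩, if_pos h1, h2, Real.rpow_one, one_mul]
      have : (1 : ℂ) + σ - I * (0 : ℝ) - 1 = (σ : ℂ) := by push_cast; ring
      rw [this, Complex.norm_real, Real.norm_eq_abs, abs_of_pos h0]
    · refine ⟨|γ i|, abs_pos.mpr h2, fun σ h0 _ => ?_⟩
      rw [if_neg (fun h => h2 h.2), if_pos h1, Real.rpow_zero, mul_one]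
      have h3 := Complex.abs_im_le_norm (1 + (σ : ℂ) - I * (γ i : ℂ) - 1)
      simpa using h3
  · refine ⟨1, one_pos, fun σ h0 _ => ?_⟩
    rw [if_neg (fun h => h1 h.1), if_neg h1, Real.rpow_zero, norm_one, mul_one]

include hc hq in
/-- the weight of the trivial character is at least 1 -/
lemma weight_ge_one
    (hd : Tendsto (fun N : ℕ => Real.sqrt N * ‖SS (fun n => cmOf (uu c χ γ) n) N‖) atTop (𝓝 0)) :
    1 ≤ ∑ i, c i * ee χ γ i := by
  by_contra hlt
  push Not at hlt
  set a : ℝ := ∑ i, c i * ee χ γ i with ha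
  set Ph : ℂ → ℂ := Phi (fun n => cmOf (uu c χ γ) n) with hPh
  -- compactness constants
  have hKc : ∀ i, ∃ M : ℝ, 0 < M ∧ ∀ σ : ℝ, 0 < σ → σ < 1 → ‖Kf (χ i) (1 + σ - I * γ i)‖ ≤ M := by
    intro i
    have hcont : Continuous (fun σ : ℝ => Kf (χ i) (1 + σ - I * γ i)) :=
      (Kf_diff (χ i)).continuous.comp (by fun_prop)
    obtain ⟨M, hM⟩ := (isCompact_Icc (a := (0:ℝ)) (b := 1)).exists_bound_of_continuousOn
      hcont.continuousOn
    exact ⟨|M| + 1, by positivity, fun σ h0 h1 => by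
      have := hM σ ⟨h0.le, h1.le⟩
      have h2 := le_abs_self M
      linarith⟩
  choose M hM0 hM using hKc
  choose m hm0 hm using pf_low_zero χ γ
  obtain ⟨M1, hM1⟩ : ∃ M1 : ℝ, ∀ σ : ℝ, 0 < σ → σ < 1 → ‖Ph σ‖ ≤ M1 := by
    have hcont : ContinuousOn (fun σ : ℝ => Ph σ) (Set.Icc 0 1) := by
      intro σ hσ
      refine ContinuousAt.continuousWithinAt ?_
      have h1 := (Phi_differentiableAt _ hd (σ : ℂ)
        (by rw [Complex.ofReal_re]; linarith [hσ.1])).continuousAt
      exact ContinuousAt.comp (f := fun x : ℝ => (x : ℂ)) h1 Complex.continuous_ofReal.continuousAt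
    obtain ⟨M1, h1⟩ := (isCompact_Icc (a := (0:ℝ)) (b := 1)).exists_bound_of_continuousOn hcont
    exact ⟨M1, fun σ h2 h3 => h1 σ ⟨h2.le, h3.le⟩⟩
  obtain ⟨M2, hM2⟩ : ∃ M2 : ℝ, ∀ σ : ℝ, 0 < σ → σ < 1 → ‖T c χ γ σ‖ ≤ M2 := by
    have hcont : ContinuousOn (fun σ : ℝ => T c χ γ σ) (Set.Icc 0 1) := by
      intro σ hσ
      refine ContinuousAt.continuousWithinAt ?_
      have h1 := (T_diff c hc hq χ γ (σ : ℂ)
        (by rw [Complex.ofReal_re]; linarith [hσ.1])).continuousAt
      exact ContinuousAt.comp (f := fun x : ℝ => (x : ℂ)) h1 Complex.continuous_ofReal.continuousAt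
    obtain ⟨M1, h1⟩ := (isCompact_Icc (a := (0:ℝ)) (b := 1)).exists_bound_of_continuousOn hcont
    exact ⟨M1, fun σ h2 h3 => h1 σ ⟨h2.le, h3.le⟩⟩
  -- the inequality
  set Pc : ℝ := ∏ i, (M i / m i) ^ c i with hPc
  have hkey : ∀ σ : ℝ, 0 < σ → σ < 1 → Real.exp (-M2) ≤ M1 * Pc * σ ^ (1 - a) := by
    intro σ h0 h1
    have hs : 0 < ((σ : ℝ) : ℂ).re := by rw [Complex.ofReal_re]; exact h0
    have e1 := congrArg Complex.re (T_eq c hc hq χ γ σ hs)
    rw [Complex.add_re, Complex.re_sum] at e1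
    simp_rw [Complex.re_ofReal_mul] at e1
    have e2 : Real.exp (T c χ γ σ).re
        = ‖exp (LF c χ γ σ)‖ * ∏ i, ‖exp (La χ γ i σ)‖ ^ c i := by
      rw [e1, Real.exp_add, Real.exp_sum, Complex.norm_exp]
      congr 1
      refine Finset.prod_congr rfl fun i _ => ?_
      rw [Complex.norm_exp, ← Real.exp_mul, mul_comm]
    have h3 : Real.exp (-M2) ≤ Real.exp (T c χ γ σ).re := by
      refine Real.exp_le_exp.mpr ?_
      have h4 := (Complex.abs_re_le_norm _).trans (hM2 σ h0 h1)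
      exact (abs_le.mp h4).1
    have h5 : ‖exp (LF c χ γ σ)‖ ≤ σ * M1 := by
      rw [exp_LF c hc hq χ γ σ hs hd, norm_mul, Complex.norm_real, Real.norm_eq_abs,
        abs_of_pos h0]
      exact mul_le_mul_of_nonneg_left (hM1 σ h0 h1) h0.le
    have h6 : ∀ i, ‖exp (La χ γ i σ)‖ ≤ M i / m i * σ ^ (-ee χ γ i) := by
      intro i
      have h7 := congrArg norm (exp_La χ γ i σ hs)
      rw [norm_mul] at h7
      have h8 := hm i σ h0 h1
      have h9 := hM i σ h0 h1
      have h10 : 0 < σ ^ ee χ γ i := Real.rpow_pos_of_pos h0 _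
      have h11 : m i * σ ^ ee χ γ i * ‖exp (La χ γ i σ)‖ ≤ M i := by
        calc m i * σ ^ ee χ γ i * ‖exp (La χ γ i σ)‖
            ≤ ‖pf (χ i) (1 + σ - I * γ i)‖ * ‖exp (La χ γ i σ)‖ := by gcongr
          _ = ‖Kf (χ i) (1 + σ - I * γ i)‖ := h7.symm
          _ ≤ M i := h9
      rw [Real.rpow_neg h0.le, ← div_eq_mul_inv, div_div, le_div_iff₀ (mul_pos (hm0 i) h10)]
      linarith
    have h12 : ∏ i, ‖exp (La χ γ i σ)‖ ^ c i ≤ Pc * σ ^ (-a) := by
      calc ∏ i, ‖exp (La χ γ i σ)‖ ^ c i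
          ≤ ∏ i, (M i / m i * σ ^ (-ee χ γ i)) ^ c i :=
            Finset.prod_le_prod (fun i _ => by positivity) fun i _ =>
              Real.rpow_le_rpow (norm_nonneg _) (h6 i) (hc i).le
        _ = ∏ i, (M i / m i) ^ c i * σ ^ (-(c i * ee χ γ i)) := by
            refine Finset.prod_congr rfl fun i _ => ?_
            rw [Real.mul_rpow (div_nonneg (hM0 i).le (hm0 i).le) (Real.rpow_nonneg h0.le _),
              ← Real.rpow_mul h0.le]
            congr 2
            ring
        _ = Pc * σ ^ (-a) := by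
            rw [Finset.prod_mul_distrib, hPc, ha, ← Finset.sum_neg_distrib,
              Real.rpow_sum_of_pos h0]
    calc Real.exp (-M2) ≤ ‖exp (LF c χ γ σ)‖ * ∏ i, ‖exp (La χ γ i σ)‖ ^ c i := by
          rw [← e2]; exact h3
      _ ≤ (σ * M1) * (Pc * σ ^ (-a)) := by
          refine mul_le_mul h5 h12 (Finset.prod_nonneg fun i _ => by positivity) ?_
          exact (norm_nonneg _).trans h5
      _ = M1 * Pc * σ ^ (1 - a) := by
          have : σ ^ (1 - a) = σ * σ ^ (-a) := by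
            rw [sub_eq_add_neg, Real.rpow_add h0, Real.rpow_one]
          rw [this]
          ring
  have hlim : Tendsto (fun σ : ℝ => M1 * Pc * σ ^ (1 - a)) (𝓝[>] 0) (𝓝 (M1 * Pc * 0)) := by
    refine Tendsto.const_mul _ ?_
    have h1 : ContinuousAt (fun σ : ℝ => σ ^ (1 - a)) 0 :=
      Real.continuousAt_rpow_const _ _ (Or.inr (by linarith))
    have h2 := h1.tendsto
    rw [Real.zero_rpow (by linarith)] at h2
    exact h2.mono_left nhdsWithin_le_nhds
  rw [mul_zero] at hlim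
  have h13 := ge_of_tendsto hlim (by
    have : Set.Ioo (0 : ℝ) 1 ∈ 𝓝[>] (0 : ℝ) := Ioo_mem_nhdsGT one_pos
    filter_upwards [this] with σ hσ
    exact hkey σ hσ.1 hσ.2)
  have := Real.exp_pos (-M2)
  linarith

include hc hq in
/-- lower bound of `Phi` by the corrected logarithm near `-1/2` -/
lemma Phi_ge
    (hd : Tendsto (fun N : ℕ => Real.sqrt N * ‖SS (fun n => cmOf (uu c χ γ) n) N‖) atTop (𝓝 0)) :
    ∃ k : ℝ, 0 < k ∧ ∀ x : ℝ, -(1 / 2) < x → x < -(1 / 4) →
      k * Real.exp (T c χ γ x).re ≤ ‖Phi (fun n => cmOf (uu c χ γ) n) x‖ := by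
  classical
  set Ph : ℂ → ℂ := Phi (fun n => cmOf (uu c χ γ) n) with hPh
  set U : Set ℂ := {s : ℂ | -(1 / 2) < s.re} with hU
  have hUo : IsOpen U := isOpen_lt continuous_const Complex.continuous_re
  have hUc : IsPreconnected U := (convex_halfSpace_re_gt _).isPreconnected
  let G : Unit ⊕ (ι ⊕ ι) → ℂ → ℂ := Sum.elim (fun _ s => s * Ph s)
    (Sum.elim (fun i s => Kf (χ i) (1 + s - I * γ i)) (fun i s => pf (χ i) (1 + s - I * γ i)))
  let d : Unit ⊕ (ι ⊕ ι) → ℝ := Sum.elim (fun _ => 1) (Sum.elim c (fun i => -c i))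
  let Lm : Unit ⊕ (ι ⊕ ι) → ℂ → ℂ := Sum.elim (fun _ s => LF c χ γ s)
    (Sum.elim (fun i s => log (pf (χ i) (1 + s - I * γ i)) + La χ γ i s)
      (fun i s => log (pf (χ i) (1 + s - I * γ i))))
  have hpos : ∀ᶠ s : ℂ in 𝓝 1, 0 < s.re :=
    (isOpen_lt continuous_const Complex.continuous_re).mem_nhds (by simp)
  have hslit : ∀ i, ∀ s : ℂ, 0 < s.re → pf (χ i) (1 + s - I * γ i) ∈ slitPlane := by
    intro i s hs
    unfold pf
    split_ifs
    · left
      simpa using hs
    · exact one_mem_slitPlane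
  have hpfd : ∀ i, ∀ s : ℂ, DifferentiableAt ℂ (fun s => pf (χ i) (1 + s - I * γ i)) s := by
    intro i s
    exact DifferentiableAt.comp (g := pf (χ i)) s (pf_diff (χ i) _) (by fun_prop)
  have hKd : ∀ i, ∀ s : ℂ, DifferentiableAt ℂ (fun s => Kf (χ i) (1 + s - I * γ i)) s := by
    intro i s
    exact DifferentiableAt.comp (g := Kf (χ i)) s (Kf_diff (χ i) _) (by fun_prop)
  have hLFd : ∀ s : ℂ, 0 < s.re → DifferentiableAt ℂ (LF c χ γ) s := by
    intro s hs
    have h1 : DifferentiableAt ℂ (fun s => T c χ γ s - ∑ i, (c i : ℂ) * La χ γ i s) s :=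
      (T_diff c hc hq χ γ s (by linarith)).sub
        (DifferentiableAt.fun_sum fun i _ => (La_diff c hc hq χ γ i s hs).const_mul _)
    refine h1.congr_of_eventuallyEq ?_
    filter_upwards [(isOpen_lt continuous_const Complex.continuous_re).mem_nhds
      (show 0 < s.re from hs)] with w hw
    rw [T_eq c hc hq χ γ w hw]
    ring
  obtain ⟨C, hC0, hC⟩ : ∃ C : ℝ, 0 < C ∧ ∀ x : ℝ, x ∈ Set.Ioo (-(1/2) : ℝ) 0 →
      ∏ k, ‖G k x‖ ^ d k = C * Real.exp (T c χ γ x).re := by
    refine cont_abs U hUo hUc G (T c χ γ) d ?_ ?_ 1 (by simp [hU]; norm_num) Lm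
      ?_ ?_ ?_ (-(1/2)) 0 (by norm_num) (fun x hx => by
        show -(1 / 2) < ((x : ℝ) : ℂ).re
        rw [Complex.ofReal_re]; exact hx.1) ?_
    · -- differentiability of G
      rintro (u | i | i)
      · intro s hs
        have hs' : -(1 / 2) < s.re := hs
        exact (differentiableAt_id.mul (Phi_differentiableAt _ hd s hs')).differentiableWithinAt
      · exact fun s _ => (hKd i s).differentiableWithinAt
      · exact fun s _ => (hpfd i s).differentiableWithinAt
    · exact fun s hs => (T_diff c hc hq χ γ s hs).differentiableWithinAt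
    · rintro (u | i | i)
      · filter_upwards [hpos] with s hs
        exact hLFd s hs
      · filter_upwards [hpos] with s hs
        exact ((hpfd i s).clog (hslit i s hs)).add (La_diff c hc hq χ γ i s hs)
      · filter_upwards [hpos] with s hs
        exact (hpfd i s).clog (hslit i s hs)
    · rintro (u | i | i)
      · filter_upwards [hpos] with s hs
        exact (exp_LF c hc hq χ γ s hs hd).symm
      · filter_upwards [hpos] with s hs
        show Kf (χ i) (1 + s - I * γ i) = exp (log (pf (χ i) (1 + s - I * γ i)) + La χ γ i s)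
        rw [Complex.exp_add, Complex.exp_log (Complex.slitPlane_ne_zero (hslit i s hs)),
          exp_La χ γ i s hs]
      · filter_upwards [hpos] with s hs
        exact (Complex.exp_log (Complex.slitPlane_ne_zero (hslit i s hs))).symm
    · filter_upwards [hpos] with s hs
      rw [T_eq c hc hq χ γ s hs]
      simp only [Fintype.sum_sum_type, d, Lm, Sum.elim_inl, Sum.elim_inr, Finset.univ_unique,
        Finset.sum_singleton]
      push_cast
      simp only [mul_add, Finset.sum_add_distrib, neg_mul, Finset.sum_neg_distrib]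
      ring
    · rintro (u | i | i)
      · left; exact one_pos
      · left; exact hc i
      · right
        intro x hx
        refine pf_ne_zero (χ i) _ ?_
        intro h
        have := congrArg Complex.re h
        simp at this
        exact absurd this hx.2.ne
  -- the constants
  have hKc : ∀ i, ∃ M : ℝ, 0 < M ∧ ∀ x : ℝ, -(1/2) < x → x < -(1/4) →
      ‖Kf (χ i) (1 + x - I * γ i)‖ ≤ M := by
    intro i
    have hcont : Continuous (fun σ : ℝ => Kf (χ i) (1 + σ - I * γ i)) :=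
      (Kf_diff (χ i)).continuous.comp (by fun_prop)
    obtain ⟨M, hM⟩ := (isCompact_Icc (a := (-(1/2) : ℝ)) (b := -(1/4))).exists_bound_of_continuousOn
      hcont.continuousOn
    exact ⟨|M| + 1, by positivity, fun σ h0 h1 => by
      have := hM σ ⟨h0.le, h1.le⟩
      have h2 := le_abs_self M
      linarith⟩
  choose M hM0 hM using hKc
  have hpl : ∀ i, ∀ x : ℝ, x < -(1/4) → 1 / 4 ≤ ‖pf (χ i) (1 + x - I * γ i)‖ := by
    intro i x hx
    unfold pf
    split_ifs
    · have h1 := Complex.abs_re_le_norm (1 + (x : ℂ) - I * (γ i : ℂ) - 1)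
      have h2 : (1 + (x : ℂ) - I * (γ i : ℂ) - 1).re = x := by simp
      rw [h2] at h1
      have h3 := neg_abs_le x
      linarith
    · rw [norm_one]; norm_num
  set Pc : ℝ := ∏ i, (M i * 4) ^ c i with hPc
  have hPc0 : 0 < Pc := Finset.prod_pos fun i _ =>
    Real.rpow_pos_of_pos (mul_pos (hM0 i) (by norm_num)) _
  refine ⟨C / Pc, div_pos hC0 hPc0, fun x hx1 hx2 => ?_⟩
  have h1 := hC x ⟨hx1, by linarith⟩
  simp only [Fintype.prod_sum_type, d, G, Sum.elim_inl, Sum.elim_inr, Finset.univ_unique,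
    Finset.prod_singleton, Real.rpow_one] at h1
  rw [← Finset.prod_mul_distrib] at h1
  have h2 : ∏ i, (‖Kf (χ i) (1 + x - I * γ i)‖ ^ c i * ‖pf (χ i) (1 + x - I * γ i)‖ ^ (-c i))
      ≤ Pc := by
    refine Finset.prod_le_prod (fun i _ => by positivity) fun i _ => ?_
    rw [Real.mul_rpow (hM0 i).le (by norm_num)]
    have h3 := hpl i x hx2
    refine mul_le_mul (Real.rpow_le_rpow (norm_nonneg _) (hM i x hx1 hx2) (hc i).le) ?_
      (by positivity) (by have := hM0 i; positivity)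
    rw [Real.rpow_neg (norm_nonneg _), ← Real.inv_rpow (norm_nonneg _)]
    refine Real.rpow_le_rpow (by positivity) ?_ (hc i).le
    rw [inv_le_comm₀ (by linarith) (by norm_num)]
    norm_num at h3 ⊢
    exact h3
  have h4 : ‖(x : ℂ) * Ph x‖ ≤ ‖Ph x‖ := by
    rw [norm_mul, Complex.norm_real, Real.norm_eq_abs]
    refine mul_le_of_le_one_left (norm_nonneg _) ?_
    rw [abs_le]; constructor <;> linarith
  rw [div_mul_eq_mul_div, div_le_iff₀ hPc0, ← h1]
  exact mul_le_mul h4 h2 (Finset.prod_nonneg fun i _ => by positivity) (norm_nonneg _)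

include hc hq in
/-- the model function does not decay -/
theorem model_false
    (hd : Tendsto (fun N : ℕ => Real.sqrt N * ‖SS (fun n => cmOf (uu c χ γ) n) N‖) atTop (𝓝 0)) :
    False := by
  obtain ⟨C, hC⟩ := T_low c hc hq χ γ (weight_ge_one c hc hq χ γ hd)
  obtain ⟨k, hk0, hk⟩ := Phi_ge c hc hq χ γ hd
  set κ : ℝ := k * Real.exp (-C) with hκ
  have hκ0 : 0 < κ := mul_pos hk0 (Real.exp_pos _)
  have h1 : ∀ x : ℝ, -(1 / 2) < x → x < -(1 / 4) →
      κ / (1 + 2 * x) ≤ ‖Phi (fun n => cmOf (uu c χ γ) n) x‖ := by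
    intro x hx1 hx2
    refine le_trans ?_ (hk x hx1 hx2)
    rw [hκ, mul_div_assoc]
    refine mul_le_mul_of_nonneg_left ?_ hk0.le
    have h2 := Real.exp_le_exp.mpr (hC x hx1 hx2)
    rw [sub_eq_add_neg, Real.exp_add, Real.exp_log (by
      have : 0 < 1 + 2 * x := by linarith
      positivity)] at h2
    refine le_trans (le_of_eq ?_) h2
    ring
  obtain ⟨B, hB0, hB⟩ := Phi_small _ hd (κ / 4) (by positivity)
  set δ : ℝ := min (1 / 8) (κ / (8 * (B + 1))) with hδ
  have hδ0 : 0 < δ := lt_min (by norm_num) (by positivity)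
  have hδ1 : δ ≤ 1 / 8 := min_le_left _ _
  have hδ2 : δ ≤ κ / (8 * (B + 1)) := min_le_right _ _
  have h3 := h1 (-(1/2) + δ) (by linarith) (by linarith)
  have h4 := hB (-(1/2) + δ) (by linarith)
  have h5 := h3.trans h4
  have e1 : 1 + 2 * (-(1/2) + δ) = 2 * δ := by ring
  have e2 : -(1/2) + δ + 1/2 = δ := by ring
  rw [e1, e2] at h5
  rw [le_div_iff₀ (by positivity)] at hδ2
  have h6 : κ / (2 * δ) * (4 * δ) = 2 * κ := by field_simp; ring
  have h7 : κ / 4 / δ * (4 * δ) = κ := by field_simp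
  have h8 : κ / (2 * δ) * (4 * δ) ≤ (B + κ / 4 / δ) * (4 * δ) :=
    mul_le_mul_of_nonneg_right h5 (by positivity)
  rw [h6, add_mul, h7] at h8
  nlinarith

end Pool.T6.H82.KS
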