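import Mathlib
import Pool.Agent.T6.H82.KS.Fin

/-!
The class theorem: reduction to the model function
-/

set_option autoImplicit false
set_option linter.unusedSectionVars false

open Complex Finset Filter Topology ArithmeticFunction
open Pool.H232R3

namespace Pool.T6.H82.KS

lemma uu_eq {q : ℕ} [NeZero q] {ι : Type} [Fintype ι] (c : ι → ℝ)
    (χ : ι → DirichletCharacter ℂ q) (γ : ι → ℝ) (p : ℕ) (hp : p.Prime) :
    uu c χ γ p = -(∑ i, (c i : ℂ) * χ i p * (p : ℂ) ^ (I * γ i)) / p := by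
  unfold uu zf zz
  have hp0 : (p : ℂ) ≠ 0 := by exact_mod_cast hp.ne_zero
  rw [neg_div, Finset.sum_div]
  congr 1
  refine Finset.sum_congr rfl fun i _ => ?_
  have e : (p : ℂ) ^ (-(1 + 0 - I * γ i)) = (p : ℂ) ^ (I * γ i) / p := by
    rw [show -(1 + 0 - I * (γ i : ℂ)) = I * γ i - 1 by ring, Complex.cpow_sub _ _ hp0,
      Complex.cpow_one]
  rw [e]
  ring

/-- the class theorem in contrapositive form -/
theorem class_false {q : ℕ} [NeZero q] {ι : Type} [Fintype ι] (c : ι → ℝ) (hc : ∀ i, 0 < c i)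
    (χ : ι → DirichletCharacter ℂ q) (γ : ι → ℝ) (f : ArithmeticFunction ℂ) (h1 : f 1 = 1)
    (hf : ∀ m n, f (m * n) = f m * f n)
    (hd : Tendsto (fun N : ℕ => Real.sqrt N * ‖SS (fun n => f n) N‖) atTop (𝓝 0))
    (hsum : Summable fun p : Nat.Primes => Real.sqrt p *
      ‖f p + (∑ i, (c i : ℂ) * χ i (p : ℕ) * ((p : ℕ) : ℂ) ^ (I * γ i)) / p‖) : False := by
  -- enlarge the modulus
  set B : ℕ := ⌈16 * ((∑ i, c i) + 1) ^ 2⌉₊ with hB
  set Q : ℕ := q * B.factorial with hQ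
  have hQ0 : Q ≠ 0 := Nat.mul_ne_zero (NeZero.ne q) (Nat.factorial_ne_zero B)
  have : NeZero Q := ⟨hQ0⟩
  have hqQ : q ∣ Q := dvd_mul_right q _
  set χ' : ι → DirichletCharacter ℂ Q := fun i => DirichletCharacter.changeLevel hqQ (χ i) with hχ'
  have hsmall : Small Q c := by
    intro p hp hlt
    have h2 : p ≤ B := by
      have h3 : (p : ℝ) ≤ B := hlt.le.trans (Nat.le_ceil _)
      exact_mod_cast h3
    exact (Dvd.dvd.mul_left (hp.dvd_factorial.mpr h2) q)
  have hval : ∀ p : ℕ, p.Prime → ¬ p ∣ Q → ∀ i, χ' i p = χ i p := by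
    intro p hp hpQ i
    have hu : IsUnit (p : ZMod Q) := (ZMod.isUnit_prime_iff_not_dvd hp).mpr hpQ
    simp only [hχ']
    have h3 := DirichletCharacter.changeLevel_eq_cast_of_dvd (χ i) hqQ hu.unit
    rw [IsUnit.unit_spec] at h3
    rw [h3, ZMod.cast_natCast hqQ]
  set g : ArithmeticFunction ℂ := cmOf (uu c χ' γ) with hg
  have hgp : ∀ p : ℕ, p.Prime → ‖g p‖ * Real.sqrt p ≤ 1 / 4 := by
    intro p hp
    rw [hg, cmOf_prime _ p hp]
    -- use the bound at exponents tending to -1/2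
    have hp0 : (0 : ℝ) < p := by exact_mod_cast hp.pos
    have h3 : ∀ σ : ℝ, -(1/2) < σ → ‖uu c χ' γ p‖ * (p : ℝ) ^ (-σ) ≤ 1 / 4 := fun σ hσ =>
      (uu_norm c hc hsmall χ' γ p hp σ hσ).1
    have hlim : Tendsto (fun σ : ℝ => ‖uu c χ' γ p‖ * (p : ℝ) ^ (-σ)) (𝓝[>] (-(1/2)))
        (𝓝 (‖uu c χ' γ p‖ * (p : ℝ) ^ (-(-(1/2) : ℝ)))) := by
      refine Tendsto.mono_left ?_ nhdsWithin_le_nhds
      have hcont : Continuous fun σ : ℝ => ‖uu c χ' γ p‖ * (p : ℝ) ^ (-σ) := by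
        refine continuous_const.mul ?_
        exact Continuous.rpow continuous_const (by fun_prop) (fun _ => Or.inl hp0.ne')
      exact hcont.tendsto _
    have h4 := le_of_tendsto hlim (by
      filter_upwards [self_mem_nhdsWithin] with σ hσ
      exact h3 σ hσ)
    rw [Real.sqrt_eq_rpow]
    simpa using h4
  have hS : Summable fun p : ℕ => if p.Prime then
      ‖g p - f p‖ * Real.sqrt p / (1 - ‖g p‖ * Real.sqrt p) else 0 := by
    have h5 := (summable_subtype_iff_indicator (f := fun p : ℕ => 2 * (Real.sqrt p *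
      ‖f p + (∑ i, (c i : ℂ) * χ i (p : ℕ) * ((p : ℕ) : ℂ) ^ (I * γ i)) / p‖))
        (s := {p : ℕ | p.Prime})).mp (hsum.mul_left 2)
    refine Summable.of_norm_bounded_eventually_nat h5 ?_
    filter_upwards [eventually_gt_atTop Q] with p hpQ
    by_cases hp : p.Prime
    · rw [Set.indicator_of_mem (show p ∈ {p : ℕ | p.Prime} from hp), if_pos hp]
      have hndvd : ¬ p ∣ Q := fun h => absurd (Nat.le_of_dvd (Nat.pos_of_ne_zero hQ0) h)
        (not_le.mpr hpQ)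
      have h6 : g p - f p = -(f p + (∑ i, (c i : ℂ) * χ i (p : ℕ) * ((p : ℕ) : ℂ) ^ (I * γ i)) / p) := by
        rw [hg, cmOf_prime _ p hp, uu_eq c χ' γ p hp]
        simp_rw [hval p hp hndvd]
        ring
      rw [h6, norm_neg]
      have h7 := hgp p hp
      have h8 : 0 ≤ ‖f p + (∑ i, (c i : ℂ) * χ i (p : ℕ) * ((p : ℕ) : ℂ) ^ (I * γ i)) / p‖
        * Real.sqrt p := by positivity
      rw [Real.norm_eq_abs, abs_of_nonneg (div_nonneg h8 (by linarith)),
        div_le_iff₀ (by linarith)]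
      nlinarith
    · rw [Set.indicator_of_notMem (show p ∉ {p : ℕ | p.Prime} from hp), if_neg hp, norm_zero]
  have hd' := perturb f g h1 hf (cmOf_one _) (cmOf_mul _)
    (fun p hp => by linarith [hgp p hp]) hS hd
  exact model_false c hc hsmall χ' γ hd'

/-- the class theorem -/
theorem main {q : ℕ} [NeZero q] {ι : Type} [Fintype ι] (c : ι → ℝ) (hc : ∀ i, 0 < c i)
    (χ : ι → DirichletCharacter ℂ q) (γ : ι → ℝ) (f : ℕ → ℂ) (h1 : f 1 = 1)
    (hf : ∀ m n : ℕ, 0 < m → 0 < n → f (m * n) = f m * f n)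
    (hsum : Summable fun p : Nat.Primes => Real.sqrt p *
      ‖f p + (∑ i, (c i : ℂ) * χ i (p : ℕ) * ((p : ℕ) : ℂ) ^ (I * γ i)) / p‖) :
    ∃ C : ℝ, 0 < C ∧ ∀ M : ℕ, ∃ N : ℕ, M ≤ N ∧ 0 < N ∧
        C / Real.sqrt (N : ℝ) ≤ ‖∑ n ∈ Finset.Icc 1 N, f n‖ := by
  by_contra hcon
  have hd := tendsto_of_not_omega f hcon
  refine class_false c hc χ γ (ext0 f) (by rw [ext0_apply f 1 one_ne_zero]; exact h1)
    (ext0_mul f hf) ?_ ?_
  · simp_rw [ext0_SS]; exact hd
  · refine hsum.congr fun p => ?_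
    rw [ext0_apply f p p.2.ne_zero]

end Pool.T6.H82.KS
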